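import Mathlib

/-!
# Arithmetic of the counting functions for subgroups of ZM-groups
-/

namespace Pool.Agent.X9.ZM

open Finset

/-- `m / gcd(m,R)`. -/
def cc (m : ℕ) (R : ℤ) : ℕ := m / Int.gcd (m : ℤ) R

/-- `m` and `R` are separated: every prime of `m` which divides `R` does so to the full power. -/
def Sp (m : ℕ) (R : ℤ) : Prop :=
  ∃ S : ℤ, (m : ℤ) ∣ R * S ∧ ∃ α β γ : ℤ, α * S + β * R + γ * m = 1

lemma gcd_dvd_nat (m : ℕ) (R : ℤ) : Int.gcd (m : ℤ) R ∣ m := by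
  have h : ((Int.gcd (m : ℤ) R : ℕ) : ℤ) ∣ (m : ℤ) := Int.gcd_dvd_left ..
  exact_mod_cast h

lemma gcd_pos {m : ℕ} (hm : 0 < m) (R : ℤ) : 0 < Int.gcd (m : ℤ) R :=
  Nat.pos_of_dvd_of_pos (gcd_dvd_nat m R) hm

lemma cc_mul (m : ℕ) (R : ℤ) : cc m R * Int.gcd (m : ℤ) R = m :=
  Nat.div_mul_cancel (gcd_dvd_nat m R)

lemma cc_dvd_self (m : ℕ) (R : ℤ) : cc m R ∣ m := ⟨_, (cc_mul m R).symm⟩

lemma cc_pos {m : ℕ} (hm : 0 < m) (R : ℤ) : 0 < cc m R :=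
  Nat.pos_of_dvd_of_pos (cc_dvd_self m R) hm

lemma dvd_iff {m : ℕ} (hm : 0 < m) (R t : ℤ) :
    (m : ℤ) ∣ t * R ↔ ((cc m R : ℕ) : ℤ) ∣ t := by
  obtain ⟨R', hR'⟩ : ((Int.gcd (m : ℤ) R : ℕ) : ℤ) ∣ R := Int.gcd_dvd_right ..
  have hd : (0 : ℤ) < ((Int.gcd (m : ℤ) R : ℕ) : ℤ) := by exact_mod_cast gcd_pos hm R
  have hc : ((cc m R : ℕ) : ℤ) * ((Int.gcd (m : ℤ) R : ℕ) : ℤ) = m := by
    exact_mod_cast cc_mul m R
  have hb := Int.gcd_eq_gcd_ab (m : ℤ) R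
  set d : ℤ := ((Int.gcd (m : ℤ) R : ℕ) : ℤ) with hdd
  set c : ℤ := ((cc m R : ℕ) : ℤ) with hcc
  set A := Int.gcdA (m : ℤ) R
  set B := Int.gcdB (m : ℤ) R
  have h1 : c * A + R' * B = 1 := by
    have : d * (c * A + R' * B) = d * 1 := by
      rw [mul_one]
      conv_rhs => rw [hb]
      conv_rhs => rw [hR', ← hc]
      ring
    exact mul_left_cancel₀ hd.ne' this
  constructor
  · rintro ⟨w, hw⟩
    have h2 : t * R' = c * w := by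
      have : d * (t * R') = d * (c * w) := by
        calc d * (t * R') = t * (d * R') := by ring
          _ = t * R := by rw [← hR']
          _ = m * w := hw
          _ = c * d * w := by rw [hc]
          _ = d * (c * w) := by ring
      exact mul_left_cancel₀ hd.ne' this
    refine ⟨t * A + w * B, ?_⟩
    calc t = t * (c * A + R' * B) := by rw [h1, mul_one]
      _ = c * (t * A) + (t * R') * B := by ring
      _ = c * (t * A + w * B) := by rw [h2]; ring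
  · rintro ⟨w, hw⟩
    refine ⟨w * R', ?_⟩
    calc t * R = (c * w) * (d * R') := by rw [← hw, ← hR']
      _ = (c * d) * (w * R') := by ring
      _ = m * (w * R') := by rw [hc]

lemma Sp.of_dvd {m M : ℕ} {R : ℤ} (h : Sp m R) (hM : M ∣ m) : Sp M R := by
  obtain ⟨S, h1, α, β, γ, h2⟩ := h
  obtain ⟨k, rfl⟩ := hM
  refine ⟨S, (dvd_trans ⟨(k : ℤ), by push_cast; ring⟩ h1), α, β, γ * k, ?_⟩
  rw [← h2]; push_cast; ring

lemma Sp.cop {m : ℕ} (hm : 0 < m) {R : ℤ} (h : Sp m R) :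
    IsCoprime ((cc m R : ℕ) : ℤ) R := by
  obtain ⟨S, h1, α, β, γ, h2⟩ := h
  have h3 : ((cc m R : ℕ) : ℤ) ∣ S := by
    rw [← dvd_iff hm R S, mul_comm]; exact h1
  obtain ⟨w, hw⟩ := h3
  obtain ⟨v, hv⟩ : ((cc m R : ℕ) : ℤ) ∣ (m : ℤ) := by exact_mod_cast cc_dvd_self m R
  refine ⟨α * w + γ * v, β, ?_⟩
  rw [← h2, hw]
  conv_rhs => rw [hv]
  ring

lemma Sp.mul {m : ℕ} {R1 R2 : ℤ} (h1 : Sp m R1) (h2 : Sp m R2) : Sp m (R1 * R2) := by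
  obtain ⟨S1, a1, α1, β1, γ1, b1⟩ := h1
  obtain ⟨S2, a2, α2, β2, γ2, b2⟩ := h2
  obtain ⟨u1, hu1⟩ : ((Int.gcd S1 S2 : ℕ) : ℤ) ∣ S1 := Int.gcd_dvd_left ..
  obtain ⟨u2, hu2⟩ : ((Int.gcd S1 S2 : ℕ) : ℤ) ∣ S2 := Int.gcd_dvd_right ..
  have hb := Int.gcd_eq_gcd_ab S1 S2
  set g : ℤ := ((Int.gcd S1 S2 : ℕ) : ℤ) with hg
  refine ⟨g, ?_, α1 * u1 * (α2 * S2 + β2 * R2 + γ2 * m) + β1 * R1 * α2 * u2, β1 * β2,
    γ1 * (α2 * S2 + β2 * R2 + γ2 * m) + β1 * R1 * γ2, ?_⟩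
  · rw [hb]
    have : R1 * R2 * (S1 * Int.gcdA S1 S2 + S2 * Int.gcdB S1 S2) =
      (R1 * S1) * (R2 * Int.gcdA S1 S2) + (R2 * S2) * (R1 * Int.gcdB S1 S2) := by ring
    rw [this]
    exact dvd_add (a1.mul_right _) (a2.mul_right _)
  · have : (α1 * S1 + β1 * R1 + γ1 * m) * (α2 * S2 + β2 * R2 + γ2 * m) = 1 := by
      rw [b1, b2]; norm_num
    rw [b2]
    have e1 : (α1 * S1 + β1 * R1 + γ1 * m) * 1 = 1 := by rw [b1]; norm_num
    have e2 : α1 * (g * u1) + β1 * R1 * (α2 * (g * u2) + β2 * R2 + γ2 * m) + γ1 * m = 1 := by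
      rw [← hu1, ← hu2, b2]; linarith
    linarith

lemma dvd_cc {m D : ℕ} {R : ℤ} (hD : D ∣ m) (hc : IsCoprime (D : ℤ) R) : D ∣ cc m R := by
  have h1 : Nat.Coprime D (Int.gcd (m : ℤ) R) := by
    have h2 : IsCoprime (D : ℤ) ((Int.gcd (m : ℤ) R : ℕ) : ℤ) :=
      hc.of_isCoprime_of_dvd_right (Int.gcd_dvd_right ..)
    exact_mod_cast Nat.isCoprime_iff_coprime.1 h2
  exact h1.dvd_of_dvd_mul_right (by rw [cc_mul]; exact hD)

lemma cc_dvd_cc {m M : ℕ} (hm : 0 < m) {R : ℤ} (h : Sp m R) (hM : M ∣ m) : cc M R ∣ cc m R :=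
  dvd_cc ((cc_dvd_self M R).trans hM)
    ((h.of_dvd hM).cop (Nat.pos_of_dvd_of_pos hM hm))

lemma DD_dvd {m m1 m2 : ℕ} (hm : 0 < m) (h2 : m2 ∣ m) {R1 R2 : ℤ}
    (s1 : Sp m R1) (s2 : Sp m R2) : cc (Nat.gcd m1 m2) (R1 * R2) ∣ cc m2 R2 := by
  have hg : Nat.gcd m1 m2 ∣ m := (Nat.gcd_dvd_right m1 m2).trans h2
  have h3 := ((s1.mul s2).of_dvd hg).cop (Nat.pos_of_dvd_of_pos hg hm)
  exact dvd_cc ((cc_dvd_self _ _).trans (Nat.gcd_dvd_right m1 m2)) h3.of_mul_right_right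

/-- number of `x < c` in a class modulo a divisor `d` of `c` -/
lemma card_mod {c d : ℕ} (hc : 0 < c) (hd : d ∣ c) (z : ℤ) :
    ((range c).filter (fun x : ℕ => (d : ℤ) ∣ (x : ℤ) - z)).card = c / d := by
  have hd0 : 0 < d := Nat.pos_of_dvd_of_pos hd hc
  have h1 := Nat.count_modEq_card c hd0 (z % d).toNat
  rw [Nat.count_eq_card_filter_range] at h1
  have h2 : c % d = 0 := Nat.mod_eq_zero_of_dvd hd
  rw [h2] at h1
  simp only [Nat.not_lt_zero, if_false, add_zero] at h1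
  rw [← h1]
  congr 1
  apply Finset.filter_congr
  intro x _
  rw [← Int.natCast_modEq_iff, Int.toNat_of_nonneg (Int.emod_nonneg _ (by exact_mod_cast hd0.ne'))]
  have h3 : z % (d : ℤ) ≡ z [ZMOD d] := Int.mod_modEq z d
  constructor
  · intro h
    exact (Int.ModEq.symm ((Int.modEq_iff_dvd.2 h))).trans h3.symm
  · intro h
    exact (Int.modEq_iff_dvd.1 (h.trans h3).symm)

end Pool.Agent.X9.ZM
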