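import Pool.Agent.X9.ZM.Arith

/-!
# The divisor sums of the counting functions as products over primes
-/

namespace Pool.Agent.X9.ZM

open Finset

/-- the local factor of the number of permuting pairs -/
noncomputable def locP (p k j : ℕ) (R1 R2 : ℤ) : ℚ :=
  if (p : ℤ) ∣ R1 then
    if (p : ℤ) ∣ R2 then ((k : ℚ) - j + 1) * (k + 1)
    else ((k : ℚ) - j + 1) * (((p : ℚ) ^ (k + 1) - 1) / (p - 1))
  else
    if (p : ℤ) ∣ R2 then ((k : ℚ) + 1) * (((p : ℚ) ^ (k - j + 1) - 1) / (p - 1))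
    else ((j : ℚ) + 1) * (((p : ℚ) ^ (k - j + 1) - 1) / (p - 1)) +
      2 * ((((k : ℚ) - j) * (p : ℚ) ^ (k - j + 2) - ((k : ℚ) - j + 1) * (p : ℚ) ^ (k - j + 1) + p)
        / ((p : ℚ) - 1) ^ 2)

/-- the local factor of the number of subgroups -/
noncomputable def locL (p k j : ℕ) (R : ℤ) : ℚ :=
  if (p : ℤ) ∣ R then (k : ℚ) - j + 1 else ((p : ℚ) ^ (k - j + 1) - 1) / (p - 1)

/-- the double divisor sum -/
noncomputable def FF (m M : ℕ) (R1 R2 : ℤ) : ℚ :=
  ∑ m1 ∈ m.divisors, if M ∣ m1 then ∑ m2 ∈ m.divisors,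
    ((cc m1 R1 : ℚ) / cc M R1) * ((cc m2 R2 : ℚ) / cc (Nat.gcd m1 m2) (R1 * R2)) else 0

/-- the single divisor sum -/
noncomputable def GG (m M : ℕ) (R : ℤ) : ℚ :=
  ∑ m1 ∈ m.divisors, if M ∣ m1 then ((cc m1 R : ℚ) / cc M R) else 0

lemma cc_cop {u v : ℕ} (h : u.Coprime v) (R : ℤ) : cc (u * v) R = cc u R * cc v R := by
  have h1 : ∀ w : ℕ, Int.gcd (w : ℤ) R = Nat.gcd R.natAbs w := fun w => by
    rw [Nat.gcd_comm]; rfl
  have h2 : Int.gcd ((u * v : ℕ) : ℤ) R = Int.gcd (u : ℤ) R * Int.gcd (v : ℤ) R := by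
    rw [h1, h1, h1, Nat.Coprime.gcd_mul _ h]
  unfold cc
  rw [h2]
  exact (Nat.div_mul_div_comm (gcd_dvd_nat u R) (gcd_dvd_nat v R)).symm

lemma sum_div_mul {u v : ℕ} (h : u.Coprime v) (F : ℕ → ℚ) :
    ∑ d ∈ (u * v).divisors, F d = ∑ a ∈ u.divisors, ∑ b ∈ v.divisors, F (a * b) := by
  rw [← Finset.sum_product', Nat.divisors_mul, Finset.mul_def, Finset.sum_image]
  exact h.mul_injOn_divisors

lemma gcd_mul4 {u v a b c d : ℕ} (h : u.Coprime v) (ha : a ∣ u) (hb : b ∣ v) (hc : c ∣ u)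
    (hd : d ∣ v) : Nat.gcd (a * b) (c * d) = Nat.gcd a c * Nat.gcd b d := by
  have hcd : c.Coprime d := (h.coprime_dvd_left hc).coprime_dvd_right hd
  have had : a.Coprime d := (h.coprime_dvd_left ha).coprime_dvd_right hd
  have hcb : c.Coprime b := (h.coprime_dvd_left hc).coprime_dvd_right hb
  rw [Nat.Coprime.gcd_mul _ hcd, Nat.Coprime.gcd_mul_right_cancel a hcb.symm,
    Nat.Coprime.gcd_mul_left_cancel b had]

lemma FF_mul {u v M N : ℕ} (h : u.Coprime v) (hM : M ∣ u) (hN : N ∣ v) (R1 R2 : ℤ) :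
    FF (u * v) (M * N) R1 R2 = FF u M R1 R2 * FF v N R1 R2 := by
  unfold FF
  rw [sum_div_mul h, Finset.sum_mul_sum]
  refine Finset.sum_congr rfl fun a ha => Finset.sum_congr rfl fun b hb => ?_
  have ha' := Nat.dvd_of_mem_divisors ha
  have hb' := Nat.dvd_of_mem_divisors hb
  have hab : a.Coprime b := (h.coprime_dvd_left ha').coprime_dvd_right hb'
  have hMN : M.Coprime N := (h.coprime_dvd_left hM).coprime_dvd_right hN
  have key : M * N ∣ a * b ↔ M ∣ a ∧ N ∣ b := by
    constructor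
    · intro hh
      constructor
      · exact ((h.coprime_dvd_left hM).coprime_dvd_right hb').dvd_of_dvd_mul_right
          ((Nat.dvd_mul_right M N).trans hh)
      · exact ((h.coprime_dvd_left ha').coprime_dvd_right hN).symm.dvd_of_dvd_mul_left
          ((Nat.dvd_mul_left N M).trans hh)
    · rintro ⟨h1, h2⟩
      exact Nat.mul_dvd_mul h1 h2
  by_cases h1 : M ∣ a
  · by_cases h2 : N ∣ b
    · rw [if_pos (key.2 ⟨h1, h2⟩), if_pos h1, if_pos h2, sum_div_mul h, Finset.sum_mul_sum]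
      refine Finset.sum_congr rfl fun c hc => Finset.sum_congr rfl fun d hd => ?_
      have hc' := Nat.dvd_of_mem_divisors hc
      have hd' := Nat.dvd_of_mem_divisors hd
      have hcd : c.Coprime d := (h.coprime_dvd_left hc').coprime_dvd_right hd'
      have hgg : (Nat.gcd a c).Coprime (Nat.gcd b d) :=
        (hab.coprime_dvd_left (Nat.gcd_dvd_left a c)).coprime_dvd_right (Nat.gcd_dvd_left b d)
      rw [gcd_mul4 h ha' hb' hc' hd', cc_cop hab, cc_cop hMN, cc_cop hcd, cc_cop hgg]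
      push_cast
      rw [mul_div_mul_comm, mul_div_mul_comm]
      ring
    · rw [if_neg (fun hh => h2 (key.1 hh).2), if_neg h2, mul_zero]
  · rw [if_neg (fun hh => h1 (key.1 hh).1), if_neg h1, zero_mul]

lemma cc_pp {p k x : ℕ} (hp : p.Prime) {R : ℤ} (h : Sp (p ^ k) R) (hx : x ≤ k) :
    cc (p ^ x) R = if (p : ℤ) ∣ R then 1 else p ^ x := by
  have hpx : 0 < p ^ x := pow_pos hp.pos x
  split_ifs with hR
  · have h1 := (h.of_dvd (pow_dvd_pow p hx)).cop hpx
    obtain ⟨t, _, ht⟩ := (Nat.dvd_prime_pow hp).1 (cc_dvd_self (p ^ x) R)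
    rcases Nat.eq_zero_or_pos t with h0 | h0
    · rw [ht, h0, pow_zero]
    · exfalso
      rw [ht] at h1
      have h2 : (p : ℤ) ∣ ((p ^ t : ℕ) : ℤ) := by
        exact_mod_cast dvd_pow_self p h0.ne'
      have h3 := h1.isUnit_of_dvd' h2 hR
      exact hp.one_lt.ne' (by simpa [Int.isUnit_iff] using h3)
  · unfold cc
    have h2 : Int.gcd ((p ^ x : ℕ) : ℤ) R = 1 := by
      have : Nat.Coprime (p ^ x) R.natAbs := by
        apply Nat.Coprime.pow_left
        rw [Nat.Prime.coprime_iff_not_dvd hp]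
        intro hh
        exact hR (Int.natCast_dvd.2 hh)
      exact this
    rw [h2, Nat.div_one]

lemma gcd_pp (p x y : ℕ) : Nat.gcd (p ^ x) (p ^ y) = p ^ (min x y) := by
  rcases le_total x y with h | h
  · rw [min_eq_left h, Nat.gcd_eq_left (pow_dvd_pow p h)]
  · rw [min_eq_right h, Nat.gcd_eq_right (pow_dvd_pow p h)]

lemma S2 {P : ℚ} (hP : P ≠ 1) (t : ℕ) :
    ∑ x ∈ range (t + 1), (x : ℚ) * P ^ x =
      ((t : ℚ) * P ^ (t + 2) - ((t : ℚ) + 1) * P ^ (t + 1) + P) / (P - 1) ^ 2 := by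
  have h1 : P - 1 ≠ 0 := sub_ne_zero.2 hP
  induction t with
  | zero => simp
  | succ t ih =>
    rw [Finset.sum_range_succ, ih]
    field_simp
    push_cast
    ring

lemma dbl (P : ℚ) (j t : ℕ) :
    ∑ x ∈ range (t + 1), ∑ y ∈ range (j + t + 1), P ^ (max (j + x) y - j) =
      ∑ x ∈ range (t + 1), (2 * (x : ℚ) + j + 1) * P ^ x := by
  induction t with
  | zero =>
    simp only [zero_add, Finset.range_one, Finset.sum_singleton, add_zero, pow_zero, mul_one]
    have : ∀ y ∈ range (j + 1), P ^ (max j y - j) = 1 := by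
      intro y hy
      rw [max_eq_left (Nat.lt_succ_iff.1 (Finset.mem_range.1 hy)), Nat.sub_self, pow_zero]
    rw [Finset.sum_congr rfl this]
    simp
  | succ t ih =>
    rw [Finset.sum_range_succ _ (t + 1), Finset.sum_range_succ _ (t + 1), ← ih]
    have e1 : ∀ x ∈ range (t + 1), ∑ y ∈ range (j + (t + 1) + 1), P ^ (max (j + x) y - j) =
        ∑ y ∈ range (j + t + 1), P ^ (max (j + x) y - j) + P ^ (t + 1) := by
      intro x hx
      rw [show j + (t + 1) + 1 = (j + t + 1) + 1 by ring, Finset.sum_range_succ]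
      congr 2
      have := Finset.mem_range.1 hx
      omega
    rw [Finset.sum_congr rfl e1, Finset.sum_add_distrib]
    have e2 : ∀ y ∈ range (j + (t + 1) + 1), P ^ (max (j + (t + 1)) y - j) = P ^ (t + 1) := by
      intro y hy
      have := Finset.mem_range.1 hy
      congr 1
      omega
    rw [Finset.sum_congr rfl e2]
    simp only [Finset.sum_const, Finset.card_range, nsmul_eq_mul]
    push_cast
    ring

lemma FF_pp {p k j : ℕ} (hp : p.Prime) (hj : j ≤ k) {R1 R2 : ℤ} (h1 : Sp (p ^ k) R1)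
    (h2 : Sp (p ^ k) R2) : FF (p ^ k) (p ^ j) R1 R2 = locP p k j R1 R2 := by
  obtain ⟨t, rfl⟩ := Nat.exists_eq_add_of_le hj
  have hP0 : (p : ℚ) ≠ 0 := by exact_mod_cast hp.ne_zero
  have hP1 : (p : ℚ) ≠ 1 := by exact_mod_cast hp.ne_one
  have hPs : (p : ℚ) - 1 ≠ 0 := sub_ne_zero.2 hP1
  unfold FF
  rw [Nat.sum_divisors_prime_pow hp]
  simp_rw [Nat.sum_divisors_prime_pow hp, Nat.pow_dvd_pow_iff_le_right hp.one_lt]
  rw [← Finset.sum_filter]
  have hf : (range (j + t + 1)).filter (fun x => j ≤ x) = Finset.Ico j (j + t + 1) := by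
    ext x; simp [and_comm]
  rw [hf, Finset.sum_Ico_eq_sum_range, show j + t + 1 - j = t + 1 by omega]
  have h12 := h1.mul h2
  have hterm : ∀ x ∈ range (t + 1), ∀ y ∈ range (j + t + 1),
      ((cc (p ^ (j + x)) R1 : ℚ) / cc (p ^ j) R1) *
        ((cc (p ^ y) R2 : ℚ) / cc (Nat.gcd (p ^ (j + x)) (p ^ y)) (R1 * R2)) =
      if (p : ℤ) ∣ R1 then (if (p : ℤ) ∣ R2 then 1 else (p : ℚ) ^ y)
      else (if (p : ℤ) ∣ R2 then (p : ℚ) ^ x else (p : ℚ) ^ (max (j + x) y - j)) := by
    intro x hx y hy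
    have hx' := Finset.mem_range.1 hx
    have hy' := Finset.mem_range.1 hy
    rw [gcd_pp, cc_pp hp h1 (by omega : j + x ≤ j + t), cc_pp hp h1 (by omega : j ≤ j + t),
      cc_pp hp h2 (by omega : y ≤ j + t), cc_pp hp h12 (by omega : min (j + x) y ≤ j + t)]
    have hpR : (p : ℤ) ∣ R1 * R2 ↔ (p : ℤ) ∣ R1 ∨ (p : ℤ) ∣ R2 :=
      (Nat.prime_iff_prime_int.1 hp).dvd_mul
    by_cases a1 : (p : ℤ) ∣ R1 <;> by_cases a2 : (p : ℤ) ∣ R2
    · simp [hpR, a1, a2]
    · simp [hpR, a1, a2]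
    · simp only [hpR, a1, a2, if_true, if_false, or_true]
      push_cast
      rw [pow_add]
      field_simp
    · simp only [hpR, a1, a2, if_false, or_false]
      push_cast
      have e : (p : ℚ) ^ (j + x) * (p : ℚ) ^ y =
          (p : ℚ) ^ (max (j + x) y - j) * ((p : ℚ) ^ j * (p : ℚ) ^ (min (j + x) y)) := by
        rw [← pow_add, ← pow_add, ← pow_add]
        congr 1
        rcases le_total (j + x) y with hh | hh
        · rw [max_eq_right hh, min_eq_left hh]; omega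
        · rw [max_eq_left hh, min_eq_right hh]; omega
      rw [div_mul_div_comm, e, mul_div_assoc, div_self, mul_one]
      positivity
  rw [Finset.sum_congr rfl fun x hx => Finset.sum_congr rfl fun y hy => hterm x hx y hy]
  unfold locP
  rw [show j + t - j = t by omega]
  by_cases a1 : (p : ℤ) ∣ R1 <;> by_cases a2 : (p : ℤ) ∣ R2
  · simp only [a1, a2, if_true, Finset.sum_const, Finset.card_range, nsmul_eq_mul]
    push_cast
    ring
  · simp only [a1, a2, if_true, if_false, Finset.sum_const, Finset.card_range, nsmul_eq_mul]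
    rw [geom_sum_eq hP1]
    push_cast
    ring
  · simp only [a1, a2, if_true, if_false, Finset.sum_const, Finset.card_range, nsmul_eq_mul]
    rw [← Finset.mul_sum, geom_sum_eq hP1]
    push_cast
    ring
  · simp only [a1, a2, if_false]
    rw [dbl]
    have e : ∀ x ∈ range (t + 1), (2 * (x : ℚ) + j + 1) * (p : ℚ) ^ x =
        2 * ((x : ℚ) * (p : ℚ) ^ x) + ((j : ℚ) + 1) * (p : ℚ) ^ x := fun x _ => by ring
    rw [Finset.sum_congr rfl e, Finset.sum_add_distrib, ← Finset.mul_sum, ← Finset.mul_sum,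
      S2 hP1, geom_sum_eq hP1]
    push_cast
    ring

theorem FF_prod (m : ℕ) : m ≠ 0 → ∀ M : ℕ, M ∣ m → ∀ R1 R2 : ℤ, Sp m R1 → Sp m R2 →
    FF m M R1 R2 = ∏ p ∈ m.primeFactors, locP p (m.factorization p) (M.factorization p) R1 R2 := by
  induction m using Nat.recOnPosPrimePosCoprime with
  | prime_pow p k hp hk =>
    intro _ M hM R1 R2 h1 h2
    obtain ⟨j, hj, rfl⟩ := (Nat.dvd_prime_pow hp).1 hM
    rw [FF_pp hp hj h1 h2, Nat.primeFactors_prime_pow hk.ne' hp, Finset.prod_singleton,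
      hp.factorization_pow, hp.factorization_pow]
    simp
  | zero => intro h; exact absurd rfl h
  | one =>
    intro _ M hM R1 R2 _ _
    rw [Nat.dvd_one.1 hM]
    simp [FF]
    have h1 : ∀ R : ℤ, cc 1 R = 1 := fun R => Nat.dvd_one.1 (cc_dvd_self 1 R)
    simp [h1]
  | coprime u v hu hv huv ihu ihv =>
    intro h0 M hM R1 R2 h1 h2
    have hu0 : u ≠ 0 := by omega
    have hv0 : v ≠ 0 := by omega
    obtain ⟨A, B, hA, hB, rfl⟩ := (Nat.dvd_mul.1 hM)
    have hA0 : A ≠ 0 := fun h => hu0 (Nat.eq_zero_of_zero_dvd (h ▸ hA))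
    have hB0 : B ≠ 0 := fun h => hv0 (Nat.eq_zero_of_zero_dvd (h ▸ hB))
    rw [FF_mul huv hA hB, ihu hu0 A hA R1 R2 (h1.of_dvd (Nat.dvd_mul_right u v))
      (h2.of_dvd (Nat.dvd_mul_right u v)), ihv hv0 B hB R1 R2 (h1.of_dvd (Nat.dvd_mul_left v u))
      (h2.of_dvd (Nat.dvd_mul_left v u)), Nat.primeFactors_mul hu0 hv0,
      Finset.prod_union huv.disjoint_primeFactors]
    congr 1
    · refine Finset.prod_congr rfl fun p hp => ?_
      have hpp := Nat.prime_of_mem_primeFactors hp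
      have hpu := Nat.dvd_of_mem_primeFactors hp
      have hpv : ¬ p ∣ v := fun h => Nat.Prime.not_dvd_one hpp
        (huv ▸ Nat.dvd_gcd hpu h)
      rw [Nat.factorization_mul hu0 hv0, Nat.factorization_mul hA0 hB0, Finsupp.add_apply,
        Finsupp.add_apply, Nat.factorization_eq_zero_of_not_dvd hpv,
        Nat.factorization_eq_zero_of_not_dvd (fun h => hpv (h.trans hB)), add_zero, add_zero]
    · refine Finset.prod_congr rfl fun p hp => ?_
      have hpp := Nat.prime_of_mem_primeFactors hp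
      have hpv := Nat.dvd_of_mem_primeFactors hp
      have hpu : ¬ p ∣ u := fun h => Nat.Prime.not_dvd_one hpp
        (huv ▸ Nat.dvd_gcd h hpv)
      rw [Nat.factorization_mul hu0 hv0, Nat.factorization_mul hA0 hB0, Finsupp.add_apply,
        Finsupp.add_apply, Nat.factorization_eq_zero_of_not_dvd hpu,
        Nat.factorization_eq_zero_of_not_dvd (fun h => hpu (h.trans hA)), zero_add, zero_add]

lemma Sp_zero (m : ℕ) : Sp m 0 := ⟨1, by simp, 1, 0, 0, by norm_num⟩

lemma cc_zero {m : ℕ} (hm : 0 < m) : cc m 0 = 1 := by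
  unfold cc
  simp [Nat.div_self hm]

theorem GG_prod (m : ℕ) (hm : m ≠ 0) (M : ℕ) (hM : M ∣ m) (R : ℤ) (h : Sp m R) :
    GG m M R = ∏ p ∈ m.primeFactors, locL p (m.factorization p) (M.factorization p) R := by
  have h1 := FF_prod m hm M hM R 0 h (Sp_zero m)
  have hpos : (0 : ℚ) < (m.divisors.card : ℚ) := by
    exact_mod_cast Finset.card_pos.2 ⟨1, Nat.one_mem_divisors.2 hm⟩
  have e1 : FF m M R 0 = GG m M R * m.divisors.card := by
    unfold FF GG
    rw [Finset.sum_mul]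
    refine Finset.sum_congr rfl fun m1 hm1 => ?_
    split_ifs
    · have : ∀ m2 ∈ m.divisors, ((cc m1 R : ℚ) / cc M R) *
          ((cc m2 0 : ℚ) / cc (Nat.gcd m1 m2) (R * 0)) = ((cc m1 R : ℚ) / cc M R) := by
        intro m2 hm2
        rw [mul_zero, cc_zero (Nat.pos_of_mem_divisors hm2),
          cc_zero (Nat.gcd_pos_of_pos_right _ (Nat.pos_of_mem_divisors hm2))]
        simp
      rw [Finset.sum_congr rfl this, Finset.sum_const, nsmul_eq_mul, mul_comm]
    · simp
  have e2 : (m.divisors.card : ℚ) = ∏ p ∈ m.primeFactors, ((m.factorization p : ℚ) + 1) := by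
    rw [Nat.card_divisors hm]
    push_cast
    rfl
  have e3 : ∏ p ∈ m.primeFactors, locP p (m.factorization p) (M.factorization p) R 0 =
      (∏ p ∈ m.primeFactors, locL p (m.factorization p) (M.factorization p) R) *
      ∏ p ∈ m.primeFactors, ((m.factorization p : ℚ) + 1) := by
    rw [← Finset.prod_mul_distrib]
    refine Finset.prod_congr rfl fun p _ => ?_
    unfold locP locL
    simp only [dvd_zero, if_true]
    split_ifs <;> ring
  rw [e1, e3, ← e2] at h1
  exact mul_right_cancel₀ hpos.ne' h1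

end Pool.Agent.X9.ZM
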