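import Pool.Agent.X9.ZM.Perm

/-!
# Counting subgroups and permuting pairs
-/

namespace Pool.Agent.X9.ZM

open Finset Pointwise

variable {G : Type*} [Group G] {m n : ℕ} {r : ℤ} {a b : G}

/-- the index set of all subgroups -/
def idx (m n : ℕ) (r : ℤ) : Finset (Σ _ : ℕ × ℕ, ℕ) :=
  (m.divisors ×ˢ n.divisors).sigma (fun d => range (cc d.1 (r ^ d.2 - 1)))

/-- the subgroup with a given index -/
def tau (a b : G) (r : ℤ) (s : Σ _ : ℕ × ℕ, ℕ) : Subgroup G := T a b r s.1.1 s.1.2 s.2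

lemma Dat.tau_inj (D : Dat m n r a b) : Set.InjOn (tau a b r) (idx m n r) := by
  rintro ⟨⟨m1, n1⟩, x⟩ hx ⟨⟨m2, n2⟩, y⟩ hy h
  simp only [idx, SetLike.mem_coe, Finset.mem_sigma, Finset.mem_product, Nat.mem_divisors,
    Finset.mem_range] at hx hy
  obtain ⟨⟨⟨h1, _⟩, h2, _⟩, hx'⟩ := hx
  obtain ⟨⟨⟨h3, _⟩, h4, _⟩, hy'⟩ := hy
  unfold tau at h
  simp only at h
  rw [D.T_eq h1 h2 h3 h4] at h
  obtain ⟨rfl, rfl, h⟩ := h
  rw [dvd_iff (Nat.pos_of_dvd_of_pos h1 D.hm)] at h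
  have : x = y := by
    have h5 : y ≡ x [MOD cc m1 (r ^ n1 - 1)] := Nat.modEq_iff_dvd.2 h
    exact (h5.eq_of_lt_of_lt hy' hx').symm
  rw [this]

lemma Dat.tau_surj [DecidableEq (Subgroup G)] (D : Dat m n r a b) (K : Subgroup G) :
    K ∈ (idx m n r).image (tau a b r) := by
  obtain ⟨m1, n1, x, h1, h2, rfl⟩ := D.exists_T K
  have hm1 := Nat.pos_of_dvd_of_pos h1 D.hm
  have hc := cc_pos hm1 (r ^ n1 - 1)
  have hc' : (0 : ℤ) < ((cc m1 (r ^ n1 - 1) : ℕ) : ℤ) := by exact_mod_cast hc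
  have hw1 := Int.emod_nonneg x hc'.ne'
  have hw2 := Int.emod_lt_of_pos x hc'
  rw [Finset.mem_image]
  refine ⟨⟨(m1, n1), (x % ((cc m1 (r ^ n1 - 1) : ℕ) : ℤ)).toNat⟩, ?_, ?_⟩
  · simp only [idx, Finset.mem_sigma, Finset.mem_product, Nat.mem_divisors, Finset.mem_range]
    exact ⟨⟨⟨h1, D.hm.ne'⟩, h2, D.hn.ne'⟩, by omega⟩
  · unfold tau
    simp only
    rw [D.T_eq h1 h2 h1 h2]
    refine ⟨rfl, rfl, ?_⟩
    rw [dvd_iff hm1, Int.toNat_of_nonneg hw1]
    refine ⟨-(x / ((cc m1 (r ^ n1 - 1) : ℕ) : ℤ)), ?_⟩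
    have := Int.emod_add_mul_ediv x ((cc m1 (r ^ n1 - 1) : ℕ) : ℤ)
    linear_combination this

lemma Dat.sum_all [DecidableEq (Subgroup G)] (D : Dat m n r a b) (f : Subgroup G → ℚ) :
    ∑ K ∈ (idx m n r).image (tau a b r), f K =
      ∑ m1 ∈ m.divisors, ∑ n1 ∈ n.divisors, ∑ x ∈ range (cc m1 (r ^ n1 - 1)),
        f (T a b r m1 n1 x) := by
  rw [Finset.sum_image D.tau_inj]
  unfold idx
  rw [Finset.sum_sigma, Finset.sum_product]
  rfl

open Classical in
theorem Dat.count_sub (D : Dat m n r a b) {M N : ℕ} (hM : M ∣ m) (hN : N ∣ n) (z : ℤ) :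
    (({A : Subgroup G | A ≤ T a b r M N z}.ncard : ℕ) : ℚ) =
      ∑ n1 ∈ n.divisors, if N ∣ n1 then GG m M (r ^ n1 - 1) else 0 := by
  have hMpos := Nat.pos_of_dvd_of_pos hM D.hm
  have e1 : {A : Subgroup G | A ≤ T a b r M N z} =
      ↑(((idx m n r).image (tau a b r)).filter (fun A => A ≤ T a b r M N z)) := by
    ext A
    simp only [Finset.coe_filter, Set.mem_ofPred_eq]
    exact ⟨fun h => ⟨D.tau_surj A, h⟩, fun h => h.2⟩
  rw [e1, Set.ncard_coe_finset, Finset.card_filter]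
  push_cast
  rw [D.sum_all, Finset.sum_comm]
  refine Finset.sum_congr rfl fun n1 hn1 => ?_
  have hn1' := Nat.dvd_of_mem_divisors hn1
  unfold GG
  by_cases hNn : N ∣ n1
  · rw [if_pos hNn]
    refine Finset.sum_congr rfl fun m1 hm1 => ?_
    have hm1' := Nat.dvd_of_mem_divisors hm1
    by_cases hMm : M ∣ m1
    · rw [if_pos hMm]
      have h2 : cc M (r ^ n1 - 1) ∣ cc m1 (r ^ n1 - 1) :=
        cc_dvd_cc (Nat.pos_of_dvd_of_pos hm1' D.hm) ((D.sp hn1').of_dvd hm1') hMm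
      have h3 := card_mod (cc_pos (Nat.pos_of_dvd_of_pos hm1' D.hm) (r ^ n1 - 1)) h2 z
      have h4 : (cc M (r ^ n1 - 1) : ℚ) ≠ 0 := by
        exact_mod_cast (cc_pos hMpos (r ^ n1 - 1)).ne'
      rw [← Nat.cast_div h2 h4, ← h3, Finset.card_filter]
      push_cast
      refine Finset.sum_congr rfl fun x _ => ?_
      rw [D.T_le hM hN, dvd_iff hMpos]
      simp [hNn, hMm]
    · rw [if_neg hMm]
      refine Finset.sum_eq_zero fun x _ => ?_
      rw [if_neg]
      rw [D.T_le hM hN]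
      exact fun h => hMm h.1
  · rw [if_neg hNn]
    refine Finset.sum_eq_zero fun m1 _ => Finset.sum_eq_zero fun x _ => ?_
    rw [if_neg]
    rw [D.T_le hM hN]
    exact fun h => hNn h.2.1

open Classical in
theorem Dat.count_pairs (D : Dat m n r a b) {M N : ℕ} (hM : M ∣ m) (hN : N ∣ n) (z : ℤ) :
    (({p : Subgroup G × Subgroup G | p.1 ≤ T a b r M N z ∧
      (p.1 : Set G) * (p.2 : Set G) = (p.2 : Set G) * (p.1 : Set G)}.ncard : ℕ) : ℚ) =
      ∑ n1 ∈ n.divisors, if N ∣ n1 then ∑ n2 ∈ n.divisors,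
        FF m M (r ^ n1 - 1) (r ^ n2 - 1) else 0 := by
  have hMpos := Nat.pos_of_dvd_of_pos hM D.hm
  set all := (idx m n r).image (tau a b r) with hall
  have e1 : {p : Subgroup G × Subgroup G | p.1 ≤ T a b r M N z ∧
      (p.1 : Set G) * (p.2 : Set G) = (p.2 : Set G) * (p.1 : Set G)} =
      ↑((all ×ˢ all).filter (fun p => p.1 ≤ T a b r M N z ∧
      (p.1 : Set G) * (p.2 : Set G) = (p.2 : Set G) * (p.1 : Set G))) := by
    ext A
    simp only [Finset.coe_filter, Set.mem_ofPred_eq, Finset.mem_product]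
    exact ⟨fun h => ⟨⟨D.tau_surj A.1, D.tau_surj A.2⟩, h⟩, fun h => h.2⟩
  rw [e1, Set.ncard_coe_finset, Finset.card_filter]
  push_cast
  rw [Finset.sum_product, hall, D.sum_all]
  -- the inner count
  have inner : ∀ m1 ∈ m.divisors, ∀ n1 ∈ n.divisors, ∀ x : ℕ,
      ∑ B ∈ (idx m n r).image (tau a b r), (if (T a b r m1 n1 x ≤ T a b r M N z ∧
        (T a b r m1 n1 x : Set G) * (B : Set G) = (B : Set G) * (T a b r m1 n1 x : Set G))
        then (1 : ℚ) else 0) =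
      (if T a b r m1 n1 x ≤ T a b r M N z then 1 else 0) *
        ∑ m2 ∈ m.divisors, ∑ n2 ∈ n.divisors, (cc m2 (r ^ n2 - 1) : ℚ) /
          cc (Nat.gcd m1 m2) ((r ^ n1 - 1) * (r ^ n2 - 1)) := by
    intro m1 hm1 n1 hn1 x
    have hm1' := Nat.dvd_of_mem_divisors hm1
    have hn1' := Nat.dvd_of_mem_divisors hn1
    by_cases hle : T a b r m1 n1 x ≤ T a b r M N z
    · rw [if_pos hle, one_mul, D.sum_all]
      refine Finset.sum_congr rfl fun m2 hm2 => Finset.sum_congr rfl fun n2 hn2 => ?_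
      have hm2' := Nat.dvd_of_mem_divisors hm2
      have hn2' := Nat.dvd_of_mem_divisors hn2
      have hm2p := Nat.pos_of_dvd_of_pos hm2' D.hm
      have hgp : 0 < Nat.gcd m1 m2 := Nat.gcd_pos_of_pos_right _ hm2p
      have h2 : cc (Nat.gcd m1 m2) ((r ^ n1 - 1) * (r ^ n2 - 1)) ∣ cc m2 (r ^ n2 - 1) :=
        DD_dvd D.hm hm2' (D.sp hn1') (D.sp hn2')
      have h3 := card_mod (cc_pos hm2p (r ^ n2 - 1)) h2 (x : ℤ)
      have h4 : (cc (Nat.gcd m1 m2) ((r ^ n1 - 1) * (r ^ n2 - 1)) : ℚ) ≠ 0 := by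
        exact_mod_cast (cc_pos hgp _).ne'
      rw [← Nat.cast_div h2 h4, ← h3, Finset.card_filter]
      push_cast
      refine Finset.sum_congr rfl fun y _ => ?_
      refine if_congr ?_ rfl rfl
      rw [and_iff_right hle, D.perm_iff hm1' hn1' hm2' hn2', dvd_iff hgp]
      have e : (x : ℤ) - y = -((y : ℤ) - x) := by ring
      rw [e, dvd_neg]
    · rw [if_neg hle, zero_mul]
      refine Finset.sum_eq_zero fun B _ => ?_
      rw [if_neg]
      exact fun h => hle h.1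
  have step : ∀ m1 ∈ m.divisors, ∀ n1 ∈ n.divisors,
      (∑ x ∈ range (cc m1 (r ^ n1 - 1)), ∑ B ∈ (idx m n r).image (tau a b r),
        (if (T a b r m1 n1 x ≤ T a b r M N z ∧
        (T a b r m1 n1 x : Set G) * (B : Set G) = (B : Set G) * (T a b r m1 n1 x : Set G))
        then (1 : ℚ) else 0)) =
      if N ∣ n1 then (if M ∣ m1 then ∑ m2 ∈ m.divisors, ∑ n2 ∈ n.divisors,
        ((cc m1 (r ^ n1 - 1) : ℚ) / cc M (r ^ n1 - 1)) * ((cc m2 (r ^ n2 - 1) : ℚ) /
          cc (Nat.gcd m1 m2) ((r ^ n1 - 1) * (r ^ n2 - 1))) else 0) else 0 := by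
    intro m1 hm1 n1 hn1
    have hm1' := Nat.dvd_of_mem_divisors hm1
    have hn1' := Nat.dvd_of_mem_divisors hn1
    rw [Finset.sum_congr rfl fun x _ => inner m1 hm1 n1 hn1 x, ← Finset.sum_mul]
    have hx : ∑ x ∈ range (cc m1 (r ^ n1 - 1)),
        (if T a b r m1 n1 x ≤ T a b r M N z then (1 : ℚ) else 0) =
        if N ∣ n1 then (if M ∣ m1 then ((cc m1 (r ^ n1 - 1) : ℚ) / cc M (r ^ n1 - 1)) else 0)
          else 0 := by
      by_cases hNn : N ∣ n1
      · rw [if_pos hNn]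
        by_cases hMm : M ∣ m1
        · rw [if_pos hMm]
          have h2 : cc M (r ^ n1 - 1) ∣ cc m1 (r ^ n1 - 1) :=
            cc_dvd_cc (Nat.pos_of_dvd_of_pos hm1' D.hm) ((D.sp hn1').of_dvd hm1') hMm
          have h3 := card_mod (cc_pos (Nat.pos_of_dvd_of_pos hm1' D.hm) (r ^ n1 - 1)) h2 z
          have h4 : (cc M (r ^ n1 - 1) : ℚ) ≠ 0 := by
            exact_mod_cast (cc_pos hMpos (r ^ n1 - 1)).ne'
          rw [← Nat.cast_div h2 h4, ← h3, Finset.card_filter]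
          push_cast
          refine Finset.sum_congr rfl fun x _ => ?_
          rw [D.T_le hM hN, dvd_iff hMpos]
          simp [hNn, hMm]
        · rw [if_neg hMm]
          refine Finset.sum_eq_zero fun x _ => ?_
          rw [if_neg]
          rw [D.T_le hM hN]
          exact fun h => hMm h.1
      · rw [if_neg hNn]
        refine Finset.sum_eq_zero fun x _ => ?_
        rw [if_neg]
        rw [D.T_le hM hN]
        exact fun h => hNn h.2.1
    rw [hx]
    split_ifs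
    · rw [Finset.mul_sum]
      refine Finset.sum_congr rfl fun m2 _ => ?_
      rw [Finset.mul_sum]
    · rw [zero_mul]
    · rw [zero_mul]
  rw [Finset.sum_congr rfl fun m1 hm1 => Finset.sum_congr rfl fun n1 hn1 => step m1 hm1 n1 hn1,
    Finset.sum_comm]
  refine Finset.sum_congr rfl fun n1 _ => ?_
  by_cases hNn : N ∣ n1
  · simp only [hNn, if_true]
    unfold FF
    rw [Finset.sum_comm]
    refine Finset.sum_congr rfl fun m1 _ => ?_
    by_cases hMm : M ∣ m1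
    · simp only [hMm, if_true]
      rw [Finset.sum_comm]
    · simp only [hMm, if_false]
      simp
  · simp only [hNn, if_false]
    simp

end Pool.Agent.X9.ZM
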