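import Pool.Agent.X9.ZM.Arith2

/-!
# Subgroups of ZM-groups and when two of them permute
-/

namespace Pool.Agent.X9.ZM

open Finset Pointwise

/-- The structural facts about a ZM-group used in the proofs. -/
structure Dat {G : Type*} [Group G] (m n : ℕ) (r : ℤ) (a b : G) : Prop where
  hm : 0 < m
  hn : 0 < n
  cop : m.Coprime n
  hrn : (m : ℤ) ∣ r ^ n - 1
  rel : ∀ (i : ℤ) (l : ℕ), a ^ i * b ^ l = b ^ l * a ^ (i * r ^ l)
  surj : ∀ g : G, ∃ (j : ℕ) (i : ℤ), g = b ^ j * a ^ i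
  eqi : ∀ (j l : ℕ) (i k : ℤ), b ^ j * a ^ i = b ^ l * a ^ k ↔ (j ≡ l [MOD n] ∧ (m : ℤ) ∣ i - k)

/-- The subgroup generated by `a^m1` and the conjugate of `b^n1` by `a^x`. -/
def T {G : Type*} [Group G] (a b : G) (r : ℤ) (m1 n1 : ℕ) (x : ℤ) : Subgroup G :=
  Subgroup.closure {a ^ (m1 : ℤ), b ^ n1 * a ^ (-x * (r ^ n1 - 1))}

variable {G : Type*} [Group G] {m n : ℕ} {r : ℤ} {a b : G}

lemma rpow (hrn : (m : ℤ) ∣ r ^ n - 1) {j l : ℕ} (h : j ≡ l [MOD n]) :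
    (m : ℤ) ∣ r ^ j - r ^ l := by
  have h0 : r ^ n ≡ 1 [ZMOD m] := (Int.modEq_iff_dvd.2 (by simpa using hrn)).symm
  have h1 : ∀ j : ℕ, r ^ j ≡ r ^ (j % n) [ZMOD m] := by
    intro j
    conv_lhs => rw [← Nat.div_add_mod j n, pow_add, pow_mul]
    have := (h0.pow (j / n)).mul_right (r ^ (j % n))
    rwa [one_pow, one_mul] at this
  have h2 : r ^ l ≡ r ^ j [ZMOD m] := by
    refine (h1 l).trans ?_
    rw [← h]
    exact (h1 j).symm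
  exact h2.dvd

lemma Dat.mul (D : Dat m n r a b) (j l : ℕ) (i k : ℤ) :
    (b ^ j * a ^ i) * (b ^ l * a ^ k) = b ^ (j + l) * a ^ (i * r ^ l + k) := by
  rw [pow_add, zpow_add, mul_assoc (b ^ j), ← mul_assoc (a ^ i), D.rel]
  simp only [mul_assoc]

lemma Dat.bn (D : Dat m n r a b) : b ^ n = 1 := by
  have := (D.eqi n 0 0 0).2 ⟨by simp [Nat.ModEq], by simp⟩
  simpa using this

lemma Dat.powc (D : Dat m n r a b) (n1 : ℕ) (u : ℤ) (q : ℕ) :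
    (b ^ n1 * a ^ u) ^ q = b ^ (n1 * q) * a ^ (u * ∑ t ∈ range q, (r ^ n1) ^ t) := by
  induction q with
  | zero => simp
  | succ q ih =>
    rw [pow_succ, ih, D.mul, geom_sum_succ]
    congr 2
    ring

lemma Dat.memK (D : Dat m n r a b) {K : Subgroup G} {m1 n1 : ℕ} {u x : ℤ}
    (ha : a ^ (m1 : ℤ) ∈ K) (hc : b ^ n1 * a ^ u ∈ K) (hu : (m1 : ℤ) ∣ u + x * (r ^ n1 - 1))
    {j : ℕ} {i : ℤ} (hj : n1 ∣ j) (hi : (m1 : ℤ) ∣ i + x * (r ^ j - 1)) :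
    b ^ j * a ^ i ∈ K := by
  obtain ⟨q, rfl⟩ := hj
  have hS : (r ^ n1 - 1) * ∑ t ∈ range q, (r ^ n1) ^ t = r ^ (n1 * q) - 1 := by
    rw [mul_geom_sum, pow_mul]
  set S := ∑ t ∈ range q, (r ^ n1) ^ t with hSdef
  have h1 : (m1 : ℤ) ∣ i - u * S := by
    have h2 := dvd_sub hi (hu.mul_right S)
    have h3 : i + x * (r ^ (n1 * q) - 1) - (u + x * (r ^ n1 - 1)) * S = i - u * S := by
      rw [← hS]; ring
    rwa [h3] at h2
  obtain ⟨w, hw⟩ := h1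
  have h4 : b ^ (n1 * q) * a ^ i = (b ^ n1 * a ^ u) ^ q * (a ^ (m1 : ℤ)) ^ w := by
    rw [D.powc, mul_assoc, ← zpow_mul, ← zpow_add, ← hSdef, ← hw]
    congr 2
    ring
  rw [h4]
  exact K.mul_mem (K.pow_mem hc q) (K.zpow_mem ha w)

/-- the explicit description of `T` as a subgroup -/
def T' (D : Dat m n r a b) {m1 : ℕ} (n1 : ℕ) (x : ℤ) (h1 : m1 ∣ m) : Subgroup G where
  carrier := {g | ∃ (j : ℕ) (i : ℤ), g = b ^ j * a ^ i ∧ n1 ∣ j ∧ (m1 : ℤ) ∣ i + x * (r ^ j - 1)}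
  mul_mem' := by
    rintro g h ⟨j, i, rfl, hj, hi⟩ ⟨l, k, rfl, hl, hk⟩
    refine ⟨j + l, i * r ^ l + k, D.mul _ _ _ _, dvd_add hj hl, ?_⟩
    have : i * r ^ l + k + x * (r ^ (j + l) - 1) =
        (i + x * (r ^ j - 1)) * r ^ l + (k + x * (r ^ l - 1)) := by
      rw [pow_add]; ring
    rw [this]
    exact dvd_add (hi.mul_right _) hk
  one_mem' := ⟨0, 0, by simp, by simp, by simp⟩
  inv_mem' := by
    rintro g ⟨j, i, rfl, hj, hi⟩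
    refine ⟨(n - 1) * j, -i * r ^ ((n - 1) * j), ?_, hj.mul_left _, ?_⟩
    · rw [inv_eq_iff_mul_eq_one, D.mul]
      have e1 : j + (n - 1) * j = n * j := by
        have := D.hn
        obtain ⟨k, rfl⟩ : ∃ k, n = k + 1 := ⟨n - 1, by omega⟩
        simp only [Nat.add_sub_cancel]; ring
      rw [e1, pow_mul, D.bn]
      simp
    · have hmm : (m1 : ℤ) ∣ (m : ℤ) := by exact_mod_cast h1
      have e1 : (n - 1) * j + j = n * j := by
        have := D.hn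
        obtain ⟨k, rfl⟩ : ∃ k, n = k + 1 := ⟨n - 1, by omega⟩
        simp only [Nat.add_sub_cancel]; ring
      have h2 : (m : ℤ) ∣ r ^ (n * j) - 1 := by
        have := rpow D.hrn (show n * j ≡ 0 [MOD n] from by simp [Nat.ModEq])
        simpa using this
      have h3 : -i * r ^ ((n - 1) * j) + x * (r ^ ((n - 1) * j) - 1) =
          x * (r ^ (n * j) - 1) - (i + x * (r ^ j - 1)) * r ^ ((n - 1) * j) := by
        rw [← e1, pow_add]; ring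
      rw [h3]
      exact dvd_sub ((hmm.trans h2).mul_left _) (hi.mul_right _)

lemma Dat.mem_T (D : Dat m n r a b) {m1 n1 : ℕ} (h1 : m1 ∣ m) (h2 : n1 ∣ n) (x : ℤ) (j : ℕ)
    (i : ℤ) : b ^ j * a ^ i ∈ T a b r m1 n1 x ↔ n1 ∣ j ∧ (m1 : ℤ) ∣ i + x * (r ^ j - 1) := by
  have hmm : (m1 : ℤ) ∣ (m : ℤ) := by exact_mod_cast h1
  constructor
  · intro h
    have hle : T a b r m1 n1 x ≤ T' D n1 x h1 := by
      unfold T
      rw [Subgroup.closure_le]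
      rintro g (rfl | rfl)
      · exact ⟨0, m1, by simp, by simp, by simp⟩
      · exact ⟨n1, _, rfl, dvd_rfl, by
          have : -x * (r ^ n1 - 1) + x * (r ^ n1 - 1) = 0 := by ring
          rw [this]; exact dvd_zero _⟩
    obtain ⟨j', i', he, hj, hi⟩ := hle h
    obtain ⟨e1, e2⟩ := (D.eqi _ _ _ _).1 he
    refine ⟨?_, ?_⟩
    · exact ((e1.of_dvd h2).dvd_iff dvd_rfl).2 hj
    · have h3 := rpow D.hrn e1
      have h4 : i + x * (r ^ j - 1) = (i' + x * (r ^ j' - 1)) + ((i - i') + x * (r ^ j - r ^ j')) := by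
        ring
      rw [h4]
      exact dvd_add hi (dvd_add (hmm.trans e2) ((hmm.trans h3).mul_left _))
  · rintro ⟨hj, hi⟩
    have hga : a ^ (m1 : ℤ) ∈ T a b r m1 n1 x := Subgroup.subset_closure (Or.inl rfl)
    have hgb : b ^ n1 * a ^ (-x * (r ^ n1 - 1)) ∈ T a b r m1 n1 x :=
      Subgroup.subset_closure (Or.inr rfl)
    exact D.memK hga hgb (x := x) (by
        have : -x * (r ^ n1 - 1) + x * (r ^ n1 - 1) = 0 := by ring
        rw [this]; exact dvd_zero _) hj hi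

lemma Dat.mem_T_a (D : Dat m n r a b) {m1 n1 : ℕ} (h1 : m1 ∣ m) (h2 : n1 ∣ n) (x : ℤ)
    (i : ℤ) : a ^ i ∈ T a b r m1 n1 x ↔ (m1 : ℤ) ∣ i := by
  have := D.mem_T h1 h2 x 0 i
  simpa using this

lemma Dat.bez (D : Dat m n r a b) {n1 : ℕ} (h2 : n1 ∣ n) :
    ∃ α β γ : ℤ, α * (∑ t ∈ range (n / n1), (r ^ n1) ^ t) + β * (r ^ n1 - 1) + γ * m = 1 := by
  have h3 : IsCoprime (m : ℤ) ((n / n1 : ℕ) : ℤ) :=
    Nat.isCoprime_iff_coprime.2 (D.cop.coprime_dvd_right (Nat.div_dvd_of_dvd h2))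
  obtain ⟨A, B, hAB⟩ := h3
  have h4 : (r ^ n1 - 1) ∣ (∑ t ∈ range (n / n1), (r ^ n1) ^ t) - ((n / n1 : ℕ) : ℤ) := by
    have : (∑ t ∈ range (n / n1), (r ^ n1) ^ t) - ((n / n1 : ℕ) : ℤ) =
        ∑ t ∈ range (n / n1), ((r ^ n1) ^ t - 1) := by
      rw [Finset.sum_sub_distrib]; simp
    rw [this]
    exact Finset.dvd_sum fun t _ => sub_one_dvd_pow_sub_one _ _
  obtain ⟨w, hw⟩ := h4
  refine ⟨B, -B * w, A, ?_⟩
  have h5 : (∑ t ∈ range (n / n1), (r ^ n1) ^ t) = ((n / n1 : ℕ) : ℤ) + (r ^ n1 - 1) * w := by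
    rw [← hw]; ring
  rw [h5, ← hAB]
  ring

lemma Dat.sp (D : Dat m n r a b) {n1 : ℕ} (h2 : n1 ∣ n) : Sp m (r ^ n1 - 1) := by
  refine ⟨_, ?_, D.bez h2⟩
  rw [mul_geom_sum, ← pow_mul, Nat.mul_div_cancel' h2]
  exact D.hrn

lemma Dat.exx (D : Dat m n r a b) {m1 n1 : ℕ} (h1 : m1 ∣ m) (h2 : n1 ∣ n) (u : ℤ)
    (hu : (m1 : ℤ) ∣ u * ∑ t ∈ range (n / n1), (r ^ n1) ^ t) :
    ∃ x : ℤ, (m1 : ℤ) ∣ u + x * (r ^ n1 - 1) := by
  have hmm : (m1 : ℤ) ∣ (m : ℤ) := by exact_mod_cast h1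
  obtain ⟨α, β, γ, h⟩ := D.bez h2
  refine ⟨-β * u, ?_⟩
  set S := ∑ t ∈ range (n / n1), (r ^ n1) ^ t
  have h3 : u + -β * u * (r ^ n1 - 1) = α * (u * S) + γ * u * m := by
    linear_combination (-u) * h
  rw [h3]
  exact dvd_add (hu.mul_left _) (hmm.mul_left _)

lemma Dat.a_pow_b (D : Dat m n r a b) (w : ℤ) (t : ℕ) (i : ℤ) :
    a ^ w * (b ^ t * a ^ i) = b ^ t * a ^ (w * r ^ t + i) := by
  have := D.mul 0 t w i
  simpa using this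

lemma Dat.exists_T (D : Dat m n r a b) (K : Subgroup G) :
    ∃ (m1 n1 : ℕ) (x : ℤ), m1 ∣ m ∧ n1 ∣ n ∧ K = T a b r m1 n1 x := by
  classical
  -- the exponents of `a` in `K`
  let I : AddSubgroup ℤ :=
    { carrier := {i | a ^ i ∈ K}
      add_mem' := fun {i k} hi hk => by
        simp only [Set.mem_ofPred_eq] at *
        rw [zpow_add]; exact K.mul_mem hi hk
      zero_mem' := by simp
      neg_mem' := fun {i} hi => by
        simp only [Set.mem_ofPred_eq] at *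
        rw [zpow_neg]; exact K.inv_mem hi }
  obtain ⟨d, hd⟩ := Int.subgroup_cyclic I
  have hI : ∀ i : ℤ, a ^ i ∈ K ↔ ((d.natAbs : ℕ) : ℤ) ∣ i := by
    intro i
    have h1 : a ^ i ∈ K ↔ i ∈ I := Iff.rfl
    rw [h1, hd, ← AddSubgroup.zmultiples_eq_closure, Int.mem_zmultiples_iff, Int.natAbs_dvd]
  have ham : a ^ (m : ℤ) = 1 := by
    have := (D.eqi 0 0 m 0).2 ⟨rfl, by simp⟩
    simpa using this
  set m1 := d.natAbs with hm1
  have h1 : m1 ∣ m := by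
    have : a ^ (m : ℤ) ∈ K := by rw [ham]; exact K.one_mem
    exact_mod_cast (hI m).1 this
  -- the least exponent of `b`
  have hex : ∃ j : ℕ, 0 < j ∧ ∃ i : ℤ, b ^ j * a ^ i ∈ K :=
    ⟨n, D.hn, 0, by rw [D.bn]; simp⟩
  set n1 := Nat.find hex with hn1
  obtain ⟨hn1pos, u, hu⟩ := Nat.find_spec hex
  rw [← hn1] at hn1pos hu
  have hmin : ∀ (j : ℕ) (i : ℤ), b ^ j * a ^ i ∈ K → n1 ∣ j := by
    intro j i hji
    have h3 : (b ^ n1 * a ^ u) ^ (j / n1) ∈ K := K.pow_mem hu _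
    rw [D.powc] at h3
    set w := u * ∑ t ∈ range (j / n1), (r ^ n1) ^ t
    have h4 : (b ^ (n1 * (j / n1)) * a ^ w)⁻¹ * (b ^ j * a ^ i) =
        b ^ (j % n1) * a ^ (-w * r ^ (j % n1) + i) := by
      rw [← D.a_pow_b]
      conv_lhs => rw [← Nat.div_add_mod j n1]
      rw [pow_add, mul_inv_rev, Nat.mul_add_div hn1pos, Nat.div_eq_of_lt (Nat.mod_lt _ hn1pos),
        add_zero]
      group
    have h5 : b ^ (j % n1) * a ^ (-w * r ^ (j % n1) + i) ∈ K := by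
      rw [← h4]; exact K.mul_mem (K.inv_mem h3) hji
    by_contra hnd
    have h6 : 0 < j % n1 := Nat.pos_of_ne_zero fun h => hnd (Nat.dvd_of_mod_eq_zero h)
    exact Nat.find_min hex (Nat.mod_lt j hn1pos) ⟨h6, _, h5⟩
  have h2 : n1 ∣ n := hmin n 0 (by rw [D.bn]; simp)
  have hS : (m1 : ℤ) ∣ u * ∑ t ∈ range (n / n1), (r ^ n1) ^ t := by
    have h3 : (b ^ n1 * a ^ u) ^ (n / n1) ∈ K := K.pow_mem hu _
    rw [D.powc, Nat.mul_div_cancel' h2, D.bn, one_mul] at h3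
    exact (hI _).1 h3
  obtain ⟨x, hx⟩ := D.exx h1 h2 u hS
  refine ⟨m1, n1, x, h1, h2, ?_⟩
  ext g
  obtain ⟨j, i, rfl⟩ := D.surj g
  rw [D.mem_T h1 h2]
  constructor
  · intro hg
    have hj := hmin j i hg
    refine ⟨hj, ?_⟩
    obtain ⟨q, rfl⟩ := hj
    have h3 : (b ^ n1 * a ^ u) ^ q ∈ K := K.pow_mem hu _
    rw [D.powc] at h3
    have h4 : (b ^ (n1 * q) * a ^ (u * ∑ t ∈ range q, (r ^ n1) ^ t))⁻¹ * (b ^ (n1 * q) * a ^ i) =
        a ^ (i - u * ∑ t ∈ range q, (r ^ n1) ^ t) := by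
      rw [sub_eq_add_neg, add_comm, zpow_add, zpow_neg]; group
    have h5 := K.mul_mem (K.inv_mem h3) hg
    rw [h4, hI] at h5
    have hS : (r ^ n1 - 1) * ∑ t ∈ range q, (r ^ n1) ^ t = r ^ (n1 * q) - 1 := by
      rw [mul_geom_sum, pow_mul]
    set S := ∑ t ∈ range q, (r ^ n1) ^ t
    have h6 := dvd_add h5 (hx.mul_right S)
    have h7 : i - u * S + (u + x * (r ^ n1 - 1)) * S = i + x * (r ^ (n1 * q) - 1) := by
      rw [← hS]; ring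
    rwa [h7] at h6
  · rintro ⟨hj, hi⟩
    exact D.memK ((hI _).2 dvd_rfl) hu hx hj hi

lemma Dat.T_le (D : Dat m n r a b) {m1 n1 M N : ℕ} (hM : M ∣ m) (hN : N ∣ n) (x z : ℤ) :
    T a b r m1 n1 x ≤ T a b r M N z ↔
      M ∣ m1 ∧ N ∣ n1 ∧ (M : ℤ) ∣ (x - z) * (r ^ n1 - 1) := by
  have e0 : T a b r m1 n1 x ≤ T a b r M N z ↔ a ^ (m1 : ℤ) ∈ T a b r M N z ∧
      b ^ n1 * a ^ (-x * (r ^ n1 - 1)) ∈ T a b r M N z := by
    conv_lhs => unfold T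
    rw [Subgroup.closure_le, Set.insert_subset_iff, Set.singleton_subset_iff]
    rfl
  rw [e0, D.mem_T_a hM hN, D.mem_T hM hN]
  have e1 : -x * (r ^ n1 - 1) + z * (r ^ n1 - 1) = -((x - z) * (r ^ n1 - 1)) := by ring
  rw [e1, dvd_neg]
  constructor
  · rintro ⟨h1, h2, h3⟩
    exact ⟨by exact_mod_cast h1, h2, h3⟩
  · rintro ⟨h1, h2, h3⟩
    exact ⟨by exact_mod_cast h1, h2, h3⟩

lemma Dat.T_eq (D : Dat m n r a b) {m1 n1 m2 n2 : ℕ} (h1 : m1 ∣ m) (h2 : n1 ∣ n) (h3 : m2 ∣ m)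
    (h4 : n2 ∣ n) (x y : ℤ) :
    T a b r m1 n1 x = T a b r m2 n2 y ↔
      m1 = m2 ∧ n1 = n2 ∧ (m1 : ℤ) ∣ (x - y) * (r ^ n1 - 1) := by
  rw [le_antisymm_iff, D.T_le h3 h4, D.T_le h1 h2]
  constructor
  · rintro ⟨⟨p1, p2, p3⟩, ⟨q1, q2, q3⟩⟩
    have e1 := Nat.dvd_antisymm q1 p1
    have e2 := Nat.dvd_antisymm q2 p2
    subst e1 e2
    exact ⟨rfl, rfl, p3⟩
  · rintro ⟨rfl, rfl, h⟩
    refine ⟨⟨dvd_rfl, dvd_rfl, h⟩, dvd_rfl, dvd_rfl, ?_⟩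
    have : (y - x) * (r ^ n1 - 1) = -((x - y) * (r ^ n1 - 1)) := by ring
    rw [this, dvd_neg]; exact h

lemma Dat.permz (D : Dat m n r a b) {m1 n1 m2 n2 : ℕ} (h1 : m1 ∣ m) (h2 : n1 ∣ n) (h3 : m2 ∣ m)
    (h4 : n2 ∣ n) (z : ℤ) :
    (T a b r m1 n1 z : Set G) * (T a b r m2 n2 z : Set G) ⊆
      (T a b r m2 n2 z : Set G) * (T a b r m1 n1 z : Set G) := by
  rintro g ⟨t1, ht1, t2, ht2, rfl⟩
  obtain ⟨j1, i1, rfl⟩ := D.surj t1
  obtain ⟨j2, i2, rfl⟩ := D.surj t2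
  simp only [SetLike.mem_coe] at ht1 ht2
  rw [D.mem_T h1 h2] at ht1
  rw [D.mem_T h3 h4] at ht2
  obtain ⟨hj1, hi1⟩ := ht1
  obtain ⟨hj2, hi2⟩ := ht2
  have hmm : (m1 : ℤ) ∣ (m : ℤ) := by exact_mod_cast h1
  have e1 : (n - 1) * j1 + j1 = n * j1 := by
    have := D.hn
    obtain ⟨k, rfl⟩ : ∃ k, n = k + 1 := ⟨n - 1, by omega⟩
    simp only [Nat.add_sub_cancel]; ring
  have hr : (m : ℤ) ∣ r ^ (n * j1) - 1 := by
    have := rpow D.hrn (show n * j1 ≡ 0 [MOD n] from by simp [Nat.ModEq])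
    simpa using this
  set i2' : ℤ := -z * (r ^ j2 - 1) + (i2 + z * (r ^ j2 - 1)) * r ^ ((n - 1) * j1) with hi2'
  refine ⟨b ^ j2 * a ^ i2', ?_, b ^ j1 * a ^ (i1 * r ^ j2 + i2 - i2' * r ^ j1), ?_, ?_⟩
  · simp only [SetLike.mem_coe]
    rw [D.mem_T h3 h4]
    refine ⟨hj2, ?_⟩
    have : i2' + z * (r ^ j2 - 1) = (i2 + z * (r ^ j2 - 1)) * r ^ ((n - 1) * j1) := by
      rw [hi2']; ring
    rw [this]
    exact hi2.mul_right _
  · simp only [SetLike.mem_coe]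
    rw [D.mem_T h1 h2]
    refine ⟨hj1, ?_⟩
    have : i1 * r ^ j2 + i2 - i2' * r ^ j1 + z * (r ^ j1 - 1) =
        (i1 + z * (r ^ j1 - 1)) * r ^ j2 - (i2 + z * (r ^ j2 - 1)) * (r ^ (n * j1) - 1) := by
      rw [hi2', ← e1, pow_add]; ring
    rw [this]
    exact dvd_sub (hi1.mul_right _) ((hmm.trans hr).mul_left _)
  · simp only
    rw [D.mul, D.mul, add_comm j2 j1]
    congr 2
    ring

end Pool.Agent.X9.ZM
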