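import Pool.Agent.X9.ZM.Grp

/-!
# When two subgroups of a ZM-group permute; counting
-/

namespace Pool.Agent.X9.ZM

open Finset Pointwise

variable {G : Type*} [Group G] {m n : ℕ} {r : ℤ} {a b : G}

lemma Dat.card_T (D : Dat m n r a b) {m1 n1 : ℕ} (h1 : m1 ∣ m) (h2 : n1 ∣ n) (x : ℤ) :
    Nat.card (T a b r m1 n1 x) = (n / n1) * (m / m1) := by
  have hm1 : 0 < m1 := Nat.pos_of_dvd_of_pos h1 D.hm
  have hn1 : 0 < n1 := Nat.pos_of_dvd_of_pos h2 D.hn
  have hmm : (m1 : ℤ) ∣ (m : ℤ) := by exact_mod_cast h1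
  let f : Fin (n / n1) × Fin (m / m1) → T a b r m1 n1 x := fun p =>
    ⟨b ^ (n1 * (p.1 : ℕ)) * a ^ ((m1 : ℤ) * (p.2 : ℕ) - x * (r ^ (n1 * (p.1 : ℕ)) - 1)), by
      rw [D.mem_T h1 h2]
      exact ⟨dvd_mul_right _ _, ⟨((p.2 : ℕ) : ℤ), by ring⟩⟩⟩
  have hinj : Function.Injective f := by
    rintro ⟨α, w⟩ ⟨α', w'⟩ h
    have h := Subtype.ext_iff.1 h
    obtain ⟨e1, e2⟩ := (D.eqi _ _ _ _).1 h
    simp only at e1 e2
    have hb : ∀ α : Fin (n / n1), n1 * (α : ℕ) < n := fun α => by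
      calc n1 * (α : ℕ) < n1 * (n / n1) := Nat.mul_lt_mul_of_pos_left α.2 hn1
        _ = n := Nat.mul_div_cancel' h2
    have hb' : ∀ w : Fin (m / m1), m1 * (w : ℕ) < m := fun w => by
      calc m1 * (w : ℕ) < m1 * (m / m1) := Nat.mul_lt_mul_of_pos_left w.2 hm1
        _ = m := Nat.mul_div_cancel' h1
    have e3 := e1.eq_of_lt_of_lt (hb α) (hb α')
    have e4 : (α : ℕ) = α' := Nat.eq_of_mul_eq_mul_left hn1 e3
    rw [← e4] at e2
    have e5 : ((m1 : ℤ) * (w : ℕ) - x * (r ^ (n1 * (α : ℕ)) - 1)) -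
        ((m1 : ℤ) * (w' : ℕ) - x * (r ^ (n1 * (α : ℕ)) - 1)) =
        ((m1 * (w : ℕ) : ℕ) : ℤ) - ((m1 * (w' : ℕ) : ℕ) : ℤ) := by push_cast; ring
    rw [e5] at e2
    have e6 : m1 * (w' : ℕ) ≡ m1 * (w : ℕ) [MOD m] := Nat.modEq_iff_dvd.2 e2
    have e7 := e6.eq_of_lt_of_lt (hb' w') (hb' w)
    have e8 : (w' : ℕ) = w := Nat.eq_of_mul_eq_mul_left hm1 e7
    exact Prod.ext (Fin.ext e4) (Fin.ext e8.symm)
  have hsurj : Function.Surjective f := by
    rintro ⟨g, hg⟩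
    obtain ⟨j, i, rfl⟩ := D.surj g
    obtain ⟨hj, hi⟩ := (D.mem_T h1 h2 x j i).1 hg
    have hd : n1 ∣ j % n := (Nat.dvd_mod_iff h2).2 hj
    have hα : (j % n) / n1 < n / n1 := Nat.div_lt_div_of_lt_of_dvd h2 (Nat.mod_lt _ D.hn)
    have hαe : n1 * ((j % n) / n1) = j % n := Nat.mul_div_cancel' hd
    have hr : (m : ℤ) ∣ r ^ (j % n) - r ^ j := rpow D.hrn (Nat.mod_modEq j n)
    have hv : (m1 : ℤ) ∣ i + x * (r ^ (j % n) - 1) := by
      have : i + x * (r ^ (j % n) - 1) = (i + x * (r ^ j - 1)) + x * (r ^ (j % n) - r ^ j) := by ring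
      rw [this]
      exact dvd_add hi ((hmm.trans hr).mul_left _)
    obtain ⟨w0, hw0⟩ := hv
    have hmp : 0 < m / m1 := Nat.div_pos (Nat.le_of_dvd D.hm h1) hm1
    have hmp' : (0 : ℤ) < ((m / m1 : ℕ) : ℤ) := by exact_mod_cast hmp
    have hw1 := Int.emod_nonneg w0 hmp'.ne'
    have hw2 := Int.emod_lt_of_pos w0 hmp'
    have hwlt : (w0 % ((m / m1 : ℕ) : ℤ)).toNat < m / m1 := by omega
    refine ⟨(⟨(j % n) / n1, hα⟩, ⟨(w0 % ((m / m1 : ℕ) : ℤ)).toNat, hwlt⟩), ?_⟩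
    apply Subtype.ext
    simp only [f]
    rw [D.eqi, hαe]
    refine ⟨Nat.mod_modEq j n, ?_⟩
    rw [Int.toNat_of_nonneg hw1]
    have e : (m1 : ℤ) * (w0 % ((m / m1 : ℕ) : ℤ)) - x * (r ^ (j % n) - 1) - i =
        -((m : ℤ) * (w0 / ((m / m1 : ℕ) : ℤ))) := by
      have h5 := Int.emod_add_mul_ediv w0 ((m / m1 : ℕ) : ℤ)
      have h6 : (m : ℤ) = (m1 : ℤ) * ((m / m1 : ℕ) : ℤ) := by
        exact_mod_cast (Nat.mul_div_cancel' h1).symm
      have h7 : i = m1 * w0 - x * (r ^ (j % n) - 1) := by linarith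
      rw [h7]
      conv_rhs => rw [h6]
      linear_combination (m1 : ℤ) * h5
    rw [e, dvd_neg]
    exact dvd_mul_right _ _
  rw [← Nat.card_congr (Equiv.ofBijective f ⟨hinj, hsurj⟩), Nat.card_prod, Nat.card_fin,
    Nat.card_fin]

lemma card_prod_eq {G : Type*} [Group G] (A B K : Subgroup G)
    (hK : (K : Set G) = (A : Set G) * (B : Set G)) :
    Nat.card A * Nat.card B = Nat.card K * Nat.card (A ⊓ B : Subgroup G) := by
  have h : ∀ k : K, ∃ p : A × B, (p.1 : G) * p.2 = k := by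
    intro k
    have hk : (k : G) ∈ (K : Set G) := k.2
    rw [hK] at hk
    obtain ⟨u, hu, v, hv, h⟩ := hk
    exact ⟨(⟨u, hu⟩, ⟨v, hv⟩), h⟩
  choose s hs using h
  rw [← Nat.card_prod, ← Nat.card_prod]
  symm
  let f : K × (A ⊓ B : Subgroup G) → A × B := fun p =>
    ((s p.1).1 * ⟨(p.2 : G), p.2.2.1⟩, ⟨(p.2 : G)⁻¹, B.inv_mem p.2.2.2⟩ * (s p.1).2)
  have hf : ∀ p, ((f p).1 : G) * (f p).2 = p.1 := by
    intro p
    simp only [f, Subgroup.coe_mul]
    rw [← hs p.1]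
    group
  apply Nat.card_congr
  refine Equiv.ofBijective f ⟨?_, ?_⟩
  · intro p q hpq
    have h1 : p.1 = q.1 := by
      apply Subtype.ext
      rw [← hf p, ← hf q, hpq]
    have h2 : ((f p).1 : G) = (f q).1 := by rw [hpq]
    simp only [f, Subgroup.coe_mul, h1] at h2
    exact Prod.ext h1 (Subtype.ext (mul_left_cancel h2))
  · rintro ⟨u, v⟩
    have hk : (u : G) * v ∈ K := by
      have : (u : G) * v ∈ (K : Set G) := by rw [hK]; exact Set.mul_mem_mul u.2 v.2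
      exact this
    have hsk := hs ⟨_, hk⟩
    simp only at hsk
    set k : K := ⟨(u : G) * v, hk⟩ with hkdef
    have e : ((s k).1 : G)⁻¹ * u = (s k).2 * (v : G)⁻¹ := by
      rw [inv_mul_eq_iff_eq_mul, ← mul_assoc, hsk]; group
    refine ⟨(k, ⟨((s k).1 : G)⁻¹ * u, ⟨A.mul_mem (A.inv_mem (s k).1.2) u.2, ?_⟩⟩), ?_⟩
    · rw [e]; exact B.mul_mem (s k).2.2 (B.inv_mem v.2)
    · refine Prod.ext (Subtype.ext ?_) (Subtype.ext ?_)
      · simp only [f, Subgroup.coe_mul]; group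
      · simp only [f, Subgroup.coe_mul]; rw [e]; group

/-- permuting subgroups: the product is a subgroup -/
def prodSub {G : Type*} [Group G] (A B : Subgroup G)
    (h : (A : Set G) * (B : Set G) = (B : Set G) * (A : Set G)) : Subgroup G where
  carrier := (A : Set G) * (B : Set G)
  mul_mem' := by
    intro x y hx hy
    have h1 : (A : Set G) * (B : Set G) * ((A : Set G) * (B : Set G)) =
        (A : Set G) * (B : Set G) := by
      calc (A : Set G) * (B : Set G) * ((A : Set G) * (B : Set G))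
          = (A : Set G) * ((B : Set G) * (A : Set G)) * (B : Set G) := by simp only [mul_assoc]
        _ = (A : Set G) * ((A : Set G) * (B : Set G)) * (B : Set G) := by rw [h]
        _ = ((A : Set G) * (A : Set G)) * ((B : Set G) * (B : Set G)) := by simp only [mul_assoc]
        _ = (A : Set G) * (B : Set G) := by rw [coe_mul_coe, coe_mul_coe]
    rw [← h1]
    exact Set.mul_mem_mul hx hy
  one_mem' := ⟨1, A.one_mem, 1, B.one_mem, by simp⟩
  inv_mem' := by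
    rintro x ⟨u, hu, v, hv, rfl⟩
    rw [h]
    exact ⟨v⁻¹, B.inv_mem hv, u⁻¹, A.inv_mem hu, by simp⟩

theorem Dat.perm_iff (D : Dat m n r a b) {m1 n1 m2 n2 : ℕ} (h1 : m1 ∣ m) (h2 : n1 ∣ n)
    (h3 : m2 ∣ m) (h4 : n2 ∣ n) (x y : ℤ) :
    ((T a b r m1 n1 x : Set G) * (T a b r m2 n2 y : Set G) =
      (T a b r m2 n2 y : Set G) * (T a b r m1 n1 x : Set G)) ↔
      ((Nat.gcd m1 m2 : ℕ) : ℤ) ∣ (x - y) * ((r ^ n1 - 1) * (r ^ n2 - 1)) := by
  have hm1 : 0 < m1 := Nat.pos_of_dvd_of_pos h1 D.hm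
  have hm2 : 0 < m2 := Nat.pos_of_dvd_of_pos h3 D.hm
  have hn1 : 0 < n1 := Nat.pos_of_dvd_of_pos h2 D.hn
  have hn2 : 0 < n2 := Nat.pos_of_dvd_of_pos h4 D.hn
  constructor
  · intro h
    set K := prodSub _ _ h with hK
    have hKs : (K : Set G) = (T a b r m1 n1 x : Set G) * (T a b r m2 n2 y : Set G) := rfl
    have hcard := card_prod_eq _ _ K hKs
    obtain ⟨m3, n3, z, h5, h6, hK3⟩ := D.exists_T K
    obtain ⟨m4, n4, w, h7, h8, hK4⟩ := D.exists_T (T a b r m1 n1 x ⊓ T a b r m2 n2 y)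
    rw [hK4] at hcard
    have hcK : Nat.card K = (n / n3) * (m / m3) := by rw [hK3]; exact D.card_T h5 h6 z
    rw [hcK, D.card_T h1 h2, D.card_T h3 h4, D.card_T h7 h8] at hcard
    have hm3 : 0 < m3 := Nat.pos_of_dvd_of_pos h5 D.hm
    have hm4 : 0 < m4 := Nat.pos_of_dvd_of_pos h7 D.hm
    -- `m4` is the least common multiple
    have hlcm : m4 = Nat.lcm m1 m2 := by
      apply Nat.dvd_antisymm
      · have : a ^ ((Nat.lcm m1 m2 : ℕ) : ℤ) ∈ T a b r m4 n4 w := by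
          rw [← hK4]
          refine ⟨?_, ?_⟩
          · exact (D.mem_T_a h1 h2 x _).2 (by exact_mod_cast Nat.dvd_lcm_left m1 m2)
          · exact (D.mem_T_a h3 h4 y _).2 (by exact_mod_cast Nat.dvd_lcm_right m1 m2)
        exact_mod_cast (D.mem_T_a h7 h8 w _).1 this
      · have : a ^ ((m4 : ℕ) : ℤ) ∈ T a b r m1 n1 x ⊓ T a b r m2 n2 y := by
          rw [hK4]
          exact (D.mem_T_a h7 h8 w _).2 dvd_rfl
        apply Nat.lcm_dvd
        · exact_mod_cast (D.mem_T_a h1 h2 x _).1 this.1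
        · exact_mod_cast (D.mem_T_a h3 h4 y _).1 this.2
    -- compare the parts of the orders prime to `n`
    have hcopd : ∀ u v : ℕ, u ∣ m → v ∣ n → Nat.Coprime u v := fun u v hu hv =>
      (D.cop.coprime_dvd_left hu).coprime_dvd_right hv
    have q1 := Nat.div_dvd_of_dvd h1
    have q2 := Nat.div_dvd_of_dvd h2
    have q3 := Nat.div_dvd_of_dvd h3
    have q4 := Nat.div_dvd_of_dvd h4
    have q5 := Nat.div_dvd_of_dvd h5
    have q6 := Nat.div_dvd_of_dvd h6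
    have q7 := Nat.div_dvd_of_dvd h7
    have q8 := Nat.div_dvd_of_dvd h8
    have hcop1 : Nat.Coprime ((m / m1) * (m / m3) * ((m / m2) * (m / m4)))
        ((n / n1) * (n / n3) * ((n / n2) * (n / n4))) := by
      have aux : ∀ u : ℕ, u ∣ m → Nat.Coprime u ((n / n1) * (n / n3) * ((n / n2) * (n / n4))) :=
        fun u hu => ((hcopd u _ hu q2).mul_right (hcopd u _ hu q6)).mul_right
          ((hcopd u _ hu q4).mul_right (hcopd u _ hu q8))
      exact ((aux _ q1).mul_left (aux _ q5)).mul_left ((aux _ q3).mul_left (aux _ q7))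
    have heq : (m / m1) * (m / m2) = (m / m3) * (m / m4) := by
      have hc := hcard
      apply Nat.dvd_antisymm
      · have hd : (m / m1) * (m / m2) ∣ ((m / m3) * (m / m4)) * ((n / n3) * (n / n4)) :=
          ⟨(n / n1) * (n / n2), by nlinarith [hc]⟩
        refine Nat.Coprime.dvd_of_dvd_mul_right ?_ hd
        exact ((hcopd _ _ q1 q6).mul_right (hcopd _ _ q1 q8)).mul_left
          ((hcopd _ _ q3 q6).mul_right (hcopd _ _ q3 q8))
      · have hd : (m / m3) * (m / m4) ∣ ((m / m1) * (m / m2)) * ((n / n1) * (n / n2)) :=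
          ⟨(n / n3) * (n / n4), by nlinarith [hc]⟩
        refine Nat.Coprime.dvd_of_dvd_mul_right ?_ hd
        exact ((hcopd _ _ q5 q2).mul_right (hcopd _ _ q5 q4)).mul_left
          ((hcopd _ _ q7 q2).mul_right (hcopd _ _ q7 q4))
    have hm3g : m3 = Nat.gcd m1 m2 := by
      have e1 : m1 * m2 = m3 * m4 := by
        have k1 := Nat.mul_div_cancel' h1
        have k2 := Nat.mul_div_cancel' h3
        have k3 := Nat.mul_div_cancel' h5
        have k4 := Nat.mul_div_cancel' h7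
        have k5 : (m1 * m2) * ((m / m1) * (m / m2)) = (m3 * m4) * ((m / m3) * (m / m4)) := by
          calc (m1 * m2) * ((m / m1) * (m / m2)) = (m1 * (m / m1)) * (m2 * (m / m2)) := by ring
            _ = m * m := by rw [k1, k2]
            _ = (m3 * (m / m3)) * (m4 * (m / m4)) := by rw [k3, k4]
            _ = (m3 * m4) * ((m / m3) * (m / m4)) := by ring
        rw [heq] at k5
        exact Nat.eq_of_mul_eq_mul_right (Nat.mul_pos
          (Nat.div_pos (Nat.le_of_dvd D.hm h5) hm3) (Nat.div_pos (Nat.le_of_dvd D.hm h7) hm4)) k5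
      rw [hlcm, ← Nat.gcd_mul_lcm m1 m2] at e1
      exact (Nat.eq_of_mul_eq_mul_right (Nat.lcm_pos hm1 hm2) e1).symm
    -- the commutator
    have hc1 : b ^ n1 * a ^ (-x * (r ^ n1 - 1)) ∈ T a b r m1 n1 x :=
      Subgroup.subset_closure (Or.inr rfl)
    have hc2 : b ^ n2 * a ^ (-y * (r ^ n2 - 1)) ∈ T a b r m2 n2 y :=
      Subgroup.subset_closure (Or.inr rfl)
    have hk1 : (b ^ n1 * a ^ (-x * (r ^ n1 - 1))) * (b ^ n2 * a ^ (-y * (r ^ n2 - 1))) ∈ K := by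
      have : _ ∈ (K : Set G) := hKs ▸ Set.mul_mem_mul hc1 hc2
      exact this
    have hk2 : (b ^ n2 * a ^ (-y * (r ^ n2 - 1))) * (b ^ n1 * a ^ (-x * (r ^ n1 - 1))) ∈ K := by
      have : _ ∈ (K : Set G) := hKs ▸ (h ▸ Set.mul_mem_mul hc2 hc1)
      exact this
    rw [D.mul] at hk1 hk2
    have hk3 := K.mul_mem (K.inv_mem hk2) hk1
    have e2 : (b ^ (n2 + n1) * a ^ (-y * (r ^ n2 - 1) * r ^ n1 + -x * (r ^ n1 - 1)))⁻¹ *
        (b ^ (n1 + n2) * a ^ (-x * (r ^ n1 - 1) * r ^ n2 + -y * (r ^ n2 - 1))) =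
        a ^ (-((x - y) * ((r ^ n1 - 1) * (r ^ n2 - 1)))) := by
      rw [add_comm n2 n1, mul_inv_rev, ← zpow_neg]
      have : a ^ (-(-y * (r ^ n2 - 1) * r ^ n1 + -x * (r ^ n1 - 1))) * (b ^ (n1 + n2))⁻¹ *
          (b ^ (n1 + n2) * a ^ (-x * (r ^ n1 - 1) * r ^ n2 + -y * (r ^ n2 - 1))) =
          a ^ (-(-y * (r ^ n2 - 1) * r ^ n1 + -x * (r ^ n1 - 1))) *
          a ^ (-x * (r ^ n1 - 1) * r ^ n2 + -y * (r ^ n2 - 1)) := by
        group
      rw [this, ← zpow_add]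
      congr 1
      ring
    rw [e2, hK3, D.mem_T_a h5 h6, dvd_neg, hm3g] at hk3
    exact hk3
  · intro h
    set R1 := r ^ n1 - 1 with hR1
    set R2 := r ^ n2 - 1 with hR2
    have s1 : Sp m1 R1 := (D.sp h2).of_dvd h1
    have s2 : Sp m2 R2 := (D.sp h4).of_dvd h3
    set c1 := cc m1 R1 with hc1
    set c2 := cc m2 R2 with hc2
    have hd1 : ((Nat.gcd c1 c2 : ℕ) : ℤ) ∣ (x - y) * (R1 * R2) := by
      refine dvd_trans ?_ h
      exact_mod_cast Nat.dvd_gcd ((Nat.gcd_dvd_left c1 c2).trans (cc_dvd_self m1 R1))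
        ((Nat.gcd_dvd_right c1 c2).trans (cc_dvd_self m2 R2))
    have hd2 : IsCoprime ((Nat.gcd c1 c2 : ℕ) : ℤ) R1 :=
      (s1.cop hm1).of_isCoprime_of_dvd_left (by exact_mod_cast Nat.gcd_dvd_left c1 c2)
    have hd3 : IsCoprime ((Nat.gcd c1 c2 : ℕ) : ℤ) R2 :=
      (s2.cop hm2).of_isCoprime_of_dvd_left (by exact_mod_cast Nat.gcd_dvd_right c1 c2)
    obtain ⟨e, he⟩ := (hd2.mul_right hd3).dvd_of_dvd_mul_right hd1
    have hb := Nat.gcd_eq_gcd_ab c1 c2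
    rw [hb] at he
    set z := x - c1 * (Nat.gcdA c1 c2 * e) with hz
    have t1 : T a b r m1 n1 x = T a b r m1 n1 z := by
      rw [D.T_eq h1 h2 h1 h2]
      refine ⟨rfl, rfl, ?_⟩
      rw [← hR1, dvd_iff hm1]
      exact ⟨Nat.gcdA c1 c2 * e, by rw [hz]; ring⟩
    have t2 : T a b r m2 n2 y = T a b r m2 n2 z := by
      rw [D.T_eq h3 h4 h3 h4]
      refine ⟨rfl, rfl, ?_⟩
      rw [← hR2, dvd_iff hm2]
      refine ⟨-(Nat.gcdB c1 c2 * e), ?_⟩
      rw [hz]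
      linear_combination (-1 : ℤ) * he
    rw [t1, t2]
    exact Set.Subset.antisymm (D.permz h1 h2 h3 h4 z) (D.permz h3 h4 h1 h2 z)

end Pool.Agent.X9.ZM
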