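import Pool.Agent.X9.ZM.Count

/-!
# The presented group `ZM(m,n,r)`
-/

namespace Pool.Agent.X9.ZM

open Finset Pointwise

/-- the relators `a^m`, `b^n`, `b⁻¹ a b a^(-r)` of `ZM(m,n,r)`; `a` is the generator `0` and `b` the
generator `1` -/
def rels (m n : ℕ) (r : ℤ) : Set (FreeGroup (Fin 2)) :=
  {FreeGroup.of 0 ^ m, FreeGroup.of 1 ^ n,
    (FreeGroup.of 1)⁻¹ * FreeGroup.of 0 * FreeGroup.of 1 * ((FreeGroup.of 0) ^ r)⁻¹}

/-- `ZM(m,n,r) = ⟨a, b | a^m = b^n = 1, b⁻¹ a b = a^r⟩` -/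
abbrev ZM (m n : ℕ) (r : ℤ) : Type := PresentedGroup (rels m n r)

/-- the generator `a` -/
def ga (m n : ℕ) (r : ℤ) : ZM m n r := PresentedGroup.of 0

/-- the generator `b` -/
def gb (m n : ℕ) (r : ℤ) : ZM m n r := PresentedGroup.of 1

lemma ga_pow (m n : ℕ) (r : ℤ) : ga m n r ^ m = 1 := by
  have : (PresentedGroup.mk (rels m n r)) (FreeGroup.of 0 ^ m) = 1 :=
    PresentedGroup.one_of_mem (Or.inl rfl)
  rw [map_pow] at this
  exact this

lemma gb_pow (m n : ℕ) (r : ℤ) : gb m n r ^ n = 1 := by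
  have : (PresentedGroup.mk (rels m n r)) (FreeGroup.of 1 ^ n) = 1 :=
    PresentedGroup.one_of_mem (Or.inr (Or.inl rfl))
  rw [map_pow] at this
  exact this

lemma g_rel (m n : ℕ) (r : ℤ) : ga m n r * gb m n r = gb m n r * ga m n r ^ r := by
  have : (PresentedGroup.mk (rels m n r))
      ((FreeGroup.of 1)⁻¹ * FreeGroup.of 0 * FreeGroup.of 1 * ((FreeGroup.of 0) ^ r)⁻¹) = 1 :=
    PresentedGroup.one_of_mem (Or.inr (Or.inr rfl))
  rw [map_mul, map_mul, map_mul, map_inv, map_inv, map_zpow, mul_inv_eq_one] at this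
  have h : (gb m n r)⁻¹ * ga m n r * gb m n r = ga m n r ^ r := this
  rw [← h]; group

lemma g_rel' (m n : ℕ) (r : ℤ) (i : ℤ) :
    ga m n r ^ i * gb m n r = gb m n r * ga m n r ^ (i * r) := by
  have h : (gb m n r)⁻¹ * ga m n r * gb m n r = ga m n r ^ r := by
    rw [mul_assoc, g_rel]; group
  have h2 : (gb m n r)⁻¹ * ga m n r ^ i * gb m n r = ga m n r ^ (i * r) := by
    rw [mul_comm i r, zpow_mul, ← h]
    have := conj_zpow (i := i) (a := (gb m n r)⁻¹) (b := ga m n r)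
    rw [inv_inv] at this
    exact this.symm
  rw [← h2]; group

lemma g_rel'' (m n : ℕ) (r : ℤ) (i : ℤ) (l : ℕ) :
    ga m n r ^ i * gb m n r ^ l = gb m n r ^ l * ga m n r ^ (i * r ^ l) := by
  induction l with
  | zero => simp
  | succ l ih =>
    rw [pow_succ, ← mul_assoc, ih, mul_assoc, g_rel', ← mul_assoc]
    congr 2
    rw [pow_succ]; ring

lemma ar_pow (m k : ℕ) (x : ZMod m) :
    ((Equiv.addRight (1 : ZMod m) : Equiv.Perm (ZMod m)) ^ k) x = x + k := by
  induction k generalizing x with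
  | zero => simp
  | succ k ih =>
    rw [pow_succ, Equiv.Perm.mul_apply, ih]
    simp only [Equiv.coe_addRight]
    push_cast
    ring

lemma ar_zpow (m : ℕ) (i : ℤ) (x : ZMod m) :
    ((Equiv.addRight (1 : ZMod m) : Equiv.Perm (ZMod m)) ^ i) x = x + i := by
  cases i with
  | ofNat k => simp [ar_pow]
  | negSucc k =>
    rw [zpow_negSucc, Equiv.Perm.inv_eq_iff_eq, ar_pow, Int.cast_negSucc]
    push_cast
    ring

/-- the affine representation, with the cyclic group of order `n` as second component -/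
lemma exists_hom (m n : ℕ) (r : ℤ) (hn : 0 < n) (hrn : (m : ℤ) ∣ r ^ n - 1) :
    ∃ (ρ : (ZMod m)ˣ) (φ : ZM m n r →* Equiv.Perm (ZMod m) × Multiplicative (ZMod n)),
      ρ ^ n = 1 ∧ φ (ga m n r) = (Equiv.addRight (1 : ZMod m), 1) ∧
      φ (gb m n r) = (Units.mulLeft ρ⁻¹, Multiplicative.ofAdd 1) := by
  have h1 : ((r : ℤ) : ZMod m) ^ n = 1 := by
    have : (((r ^ n - 1 : ℤ)) : ZMod m) = 0 := (ZMod.intCast_zmod_eq_zero_iff_dvd _ m).2 hrn
    push_cast at this
    exact sub_eq_zero.1 this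
  let ρ : (ZMod m)ˣ := Units.ofPowEqOne (r : ZMod m) n h1 hn.ne'
  have hρ : (ρ : ZMod m) = r := rfl
  have hρn : ρ ^ n = 1 := by
    apply Units.ext
    push_cast
    rw [hρ, h1]
  let f : Fin 2 → Equiv.Perm (ZMod m) × Multiplicative (ZMod n) :=
    ![(Equiv.addRight (1 : ZMod m), 1), (Units.mulLeft ρ⁻¹, Multiplicative.ofAdd 1)]
  have hf : ∀ w ∈ rels m n r, FreeGroup.lift f w = 1 := by
    rintro w (rfl | rfl | rfl)
    · rw [map_pow, FreeGroup.lift_apply_of]
      simp only [f, Matrix.cons_val_zero]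
      apply Prod.ext
      · simp only [Prod.pow_fst]
        ext x; rw [ar_pow]; simp
      · simp
    · rw [map_pow, FreeGroup.lift_apply_of]
      simp only [f, Matrix.cons_val_one, Matrix.cons_val_zero]
      apply Prod.ext
      · simp only [Prod.pow_fst]
        have hp : ∀ (k : ℕ) (x : ZMod m), ((Units.mulLeft ρ⁻¹) ^ k) x =
            ((ρ⁻¹ ^ k : (ZMod m)ˣ) : ZMod m) * x := by
          intro k
          induction k with
          | zero => intro x; simp
          | succ k ih => intro x; rw [pow_succ, Equiv.Perm.mul_apply, ih, pow_succ]; simp [mul_assoc]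
        ext x
        rw [hp, inv_pow, hρn]; simp
      · simp only [Prod.pow_snd]
        rw [← ofAdd_nsmul]; simp
    · rw [map_mul, map_mul, map_mul, map_inv, map_inv, map_zpow, FreeGroup.lift_apply_of,
        FreeGroup.lift_apply_of, mul_inv_eq_one]
      simp only [f, Matrix.cons_val_one, Matrix.cons_val_zero]
      apply Prod.ext
      · simp only [Prod.fst_mul, Prod.fst_inv, Prod.pow_fst, Prod.pow_fst]
        rw [mul_assoc, inv_mul_eq_iff_eq_mul]
        ext x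
        simp only [Equiv.Perm.mul_apply, ar_zpow, Equiv.coe_addRight, Units.mulLeft_apply, mul_add]
        congr 1
        rw [← hρ]
        simp
      · simp only [Prod.snd_mul, Prod.snd_inv, Prod.pow_snd, Prod.pow_snd]
        simp
  refine ⟨ρ, PresentedGroup.toGroup hf, hρn, ?_, ?_⟩
  · exact PresentedGroup.toGroup.of hf
  · exact PresentedGroup.toGroup.of hf

theorem zm_dat {m n : ℕ} {r : ℤ} (hm : 0 < m) (hn : 0 < n) (cop : m.Coprime n)
    (hrn : (m : ℤ) ∣ r ^ n - 1) : Dat m n r (ga m n r) (gb m n r) where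
  hm := hm
  hn := hn
  cop := cop
  hrn := hrn
  rel := g_rel'' m n r
  surj := by
    have hmul : ∀ (j l : ℕ) (i k : ℤ), (gb m n r ^ j * ga m n r ^ i) *
        (gb m n r ^ l * ga m n r ^ k) = gb m n r ^ (j + l) * ga m n r ^ (i * r ^ l + k) := by
      intro j l i k
      rw [pow_add, zpow_add, mul_assoc (gb m n r ^ j), ← mul_assoc (ga m n r ^ i), g_rel'']
      simp only [mul_assoc]
    intro g
    have hg : g ∈ Subgroup.closure (Set.range (PresentedGroup.of : Fin 2 → ZM m n r)) := by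
      rw [PresentedGroup.closure_range_of]; trivial
    induction hg using Subgroup.closure_induction with
    | mem x hx =>
      obtain ⟨i, rfl⟩ := hx
      fin_cases i
      · exact ⟨0, 1, by simp; rfl⟩
      · exact ⟨1, 0, by simp; rfl⟩
    | one => exact ⟨0, 0, by simp⟩
    | mul x y _ _ hx hy =>
      obtain ⟨j, i, rfl⟩ := hx
      obtain ⟨l, k, rfl⟩ := hy
      exact ⟨_, _, hmul _ _ _ _⟩
    | inv x _ hx =>
      obtain ⟨j, i, rfl⟩ := hx
      refine ⟨(n - 1) * j, -i * r ^ ((n - 1) * j), ?_⟩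
      rw [inv_eq_iff_mul_eq_one, hmul]
      have e1 : j + (n - 1) * j = n * j := by
        obtain ⟨k, rfl⟩ : ∃ k, n = k + 1 := ⟨n - 1, by omega⟩
        simp only [Nat.add_sub_cancel]; ring
      rw [e1, pow_mul, gb_pow]
      simp
  eqi := by
    intro j l i k
    have ham : ga m n r ^ (m : ℤ) = 1 := by rw [zpow_natCast, ga_pow]
    obtain ⟨ρ, φ, hρ, h1, h2⟩ := exists_hom m n r hn hrn
    constructor
    · intro h
      have h3 := congrArg φ h
      simp only [map_mul, map_pow, map_zpow, h1, h2] at h3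
      obtain ⟨h4, h5⟩ := Prod.ext_iff.1 h3
      simp only [Prod.fst_mul, Prod.snd_mul, Prod.pow_fst, Prod.pow_snd, Prod.pow_fst,
        Prod.pow_snd, one_zpow, mul_one] at h4 h5
      have h6 : j ≡ l [MOD n] := by
        rw [← ofAdd_nsmul, ← ofAdd_nsmul] at h5
        have h7 := Multiplicative.ofAdd.injective h5
        simp only [nsmul_eq_mul, mul_one] at h7
        exact (ZMod.natCast_eq_natCast_iff j l n).1 h7
      refine ⟨h6, ?_⟩
      have hp : ∀ (k : ℕ) (x : ZMod m), ((Units.mulLeft ρ⁻¹) ^ k) x =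
          ((ρ⁻¹ ^ k : (ZMod m)ˣ) : ZMod m) * x := by
        intro k
        induction k with
        | zero => intro x; simp
        | succ k ih => intro x; rw [pow_succ, Equiv.Perm.mul_apply, ih, pow_succ]; simp [mul_assoc]
      have h7 := congrArg (fun e : Equiv.Perm (ZMod m) => e 0) h4
      simp only [Equiv.Perm.mul_apply, ar_zpow, hp, zero_add] at h7
      have h8 : ρ⁻¹ ^ j = ρ⁻¹ ^ l := by
        have h9 : orderOf ρ⁻¹ ∣ n := by
          rw [orderOf_inv]; exact orderOf_dvd_of_pow_eq_one hρ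
        exact pow_eq_pow_iff_modEq.2 (h6.of_dvd h9)
      rw [h8] at h7
      have h10 : (i : ZMod m) = k := (Units.mul_right_inj _).1 h7
      have h11 : ((i - k : ℤ) : ZMod m) = 0 := by push_cast; rw [h10, sub_self]
      exact (ZMod.intCast_zmod_eq_zero_iff_dvd _ m).1 h11
    · rintro ⟨h3, w, hw⟩
      have h4 : gb m n r ^ j = gb m n r ^ l :=
        pow_eq_pow_iff_modEq.2 (h3.of_dvd (orderOf_dvd_of_pow_eq_one (gb_pow m n r)))
      have h5 : i = k + m * w := by linarith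
      rw [h4, h5, zpow_add, zpow_mul, ham, one_zpow, mul_one]

/-- the description of the subgroups `H_(m1,n1,s)` -/
theorem Dat.H_set {G : Type*} [Group G] {m n : ℕ} {r : ℤ} {a b : G} (D : Dat m n r a b)
    {m1 n1 : ℕ} (h1 : m1 ∣ m) (h2 : n1 ∣ n) (s : ℤ)
    (hs : (m1 : ℤ) ∣ s * ∑ t ∈ range (n / n1), (r ^ n1) ^ t) :
    ∃ z : ℤ, (T a b r m1 n1 z : Set G) = ⋃ k ∈ Finset.Icc 1 (n / n1),
      (fun x => (b ^ n1 * a ^ s) ^ k * x) '' (Subgroup.zpowers (a ^ m1) : Set G) := by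
  obtain ⟨z, hz⟩ := D.exx h1 h2 s hs
  refine ⟨z, ?_⟩
  have hn1 : 0 < n1 := Nat.pos_of_dvd_of_pos h2 D.hn
  have hc : b ^ n1 * a ^ s ∈ T a b r m1 n1 z := (D.mem_T h1 h2 z n1 s).2 ⟨dvd_rfl, hz⟩
  have ha : a ^ (m1 : ℤ) ∈ T a b r m1 n1 z := (D.mem_T_a h1 h2 z _).2 dvd_rfl
  ext g
  simp only [Set.mem_iUnion, Set.mem_image, SetLike.mem_coe, Finset.mem_Icc,
    Subgroup.mem_zpowers_iff, exists_prop]
  constructor
  · intro hg
    obtain ⟨j, i, rfl⟩ := D.surj g
    obtain ⟨⟨q, rfl⟩, hi⟩ := (D.mem_T h1 h2 z j i).1 hg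
    have hq : 0 < n / n1 := Nat.div_pos (Nat.le_of_dvd D.hn h2) hn1
    -- a representative of `q` between `1` and `n / n1`
    set N := n / n1 with hN
    have hNn : n1 * N = n := Nat.mul_div_cancel' h2
    obtain ⟨k, hk1, hk2, hk3⟩ : ∃ k, 1 ≤ k ∧ k ≤ N ∧ k ≡ q [MOD N] := by
      rcases Nat.eq_zero_or_pos (q % N) with h | h
      · exact ⟨N, hq, le_rfl, by rw [Nat.ModEq, h, Nat.mod_self]⟩
      · exact ⟨q % N, h, (Nat.mod_lt q hq).le, Nat.mod_modEq q N⟩
    have hmod : n1 * k ≡ n1 * q [MOD n] := by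
      rw [← hNn]; exact hk3.mul_left' n1
    have hr := rpow D.hrn hmod
    have hmm : (m1 : ℤ) ∣ (m : ℤ) := by exact_mod_cast h1
    have hS : (r ^ n1 - 1) * ∑ t ∈ range k, (r ^ n1) ^ t = r ^ (n1 * k) - 1 := by
      rw [mul_geom_sum, pow_mul]
    have hd : (m1 : ℤ) ∣ i - s * ∑ t ∈ range k, (r ^ n1) ^ t := by
      set S := ∑ t ∈ range k, (r ^ n1) ^ t
      have e : i - s * S = (i + z * (r ^ (n1 * q) - 1)) - (s + z * (r ^ n1 - 1)) * S +
          z * (r ^ (n1 * k) - r ^ (n1 * q)) := by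
        have : z * (r ^ (n1 * k) - r ^ (n1 * q)) = z * ((r ^ n1 - 1) * S) -
            z * (r ^ (n1 * q) - 1) := by rw [hS]; ring
        rw [this]; ring
      rw [e]
      exact dvd_add (dvd_sub hi (hz.mul_right _)) ((hmm.trans hr).mul_left _)
    obtain ⟨w, hw⟩ := hd
    refine ⟨k, ⟨hk1, hk2⟩, (a ^ m1) ^ w, ⟨w, rfl⟩, ?_⟩
    rw [D.powc, mul_assoc, ← zpow_natCast a m1, ← zpow_mul, ← zpow_add, D.eqi]
    refine ⟨hmod, ?_⟩
    rw [← hw]
    have : s * ∑ t ∈ range k, (r ^ n1) ^ t + (i - s * ∑ t ∈ range k, (r ^ n1) ^ t) - i = 0 := by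
      ring
    rw [this]; exact dvd_zero _
  · rintro ⟨k, _, x, ⟨w, rfl⟩, rfl⟩
    refine (T a b r m1 n1 z).mul_mem ((T a b r m1 n1 z).pow_mem hc k) ?_
    rw [← zpow_natCast a m1]
    exact (T a b r m1 n1 z).zpow_mem ha w

end Pool.Agent.X9.ZM
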